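import Mathlib
import Pool.Graph.R_pool_sql_team_seeded_35f281b4.K7.H55.AN.Vdc3

/-! The third derivative test in discrete form. -/

set_option autoImplicit false

namespace Pool.Agent.H25.GC

open Finset
open Pool.Agent.Helper153.Vdc
open Pool.Agent.K7.H55.AN (vdc3)

lemma sq3_le {A a b c : ℝ} (hA : 1 ≤ A) (ha : 0 ≤ a) (hb : 0 ≤ b) (hc : 0 ≤ c) :
    34 * A * (a ^ 2 + b ^ 2 + c ^ 2) ≤ (6 * A * (a + b + c)) ^ 2 := by
  have h5 : a ^ 2 + b ^ 2 + c ^ 2 ≤ (a + b + c) ^ 2 := by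
    nlinarith [mul_nonneg ha hb, mul_nonneg hb hc, mul_nonneg ha hc]
  have h6 : 34 * A ≤ (6 * A) ^ 2 := by nlinarith
  calc 34 * A * (a ^ 2 + b ^ 2 + c ^ 2) ≤ (6 * A) ^ 2 * (a + b + c) ^ 2 :=
        mul_le_mul h6 h5 (by positivity) (by positivity)
    _ = _ := by ring

/-- the third derivative test; the third differences lie in `[l^6, A l^6]` -/
theorem vdc_third (A : ℝ) (hA : 1 ≤ A) (N M : ℕ) (g : ℕ → ℝ) (l : ℝ) (hN : 1 ≤ N) (hMN : M ≤ N)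
    (hc : Cond 3 g M (l ^ 6) A) (hl : 0 < l) :
    ‖∑ n ∈ range M, ee (g n)‖ ^ 2 ≤
      60 * A * (1 + Real.log N) * (l ^ 2 * (N : ℝ) ^ 2 + √(N : ℝ) ^ 3 + √(N : ℝ) / l ^ 3 + (N : ℝ) / l ^ 2) := by
  have hN1 : (1 : ℝ) ≤ N := by exact_mod_cast hN
  have hN0 : (0 : ℝ) < N := by linarith
  set L := 1 + Real.log N with hL
  have hL1 : 1 ≤ L := by
    rw [hL]; have := Real.log_nonneg hN1; linarith
  set s := √(N : ℝ) with hs
  have hs1 : 1 ≤ s := by rw [hs, Real.one_le_sqrt]; exact hN1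
  have hs0 : 0 < s := by linarith
  have hs2 : s ^ 2 = N := Real.sq_sqrt hN0.le
  have hA0 : 0 < A := by linarith
  have hL0 : 0 < L := by linarith
  rcases le_or_gt 1 l with hl1 | hl1
  · -- trivial bound
    have h1 : (M : ℝ) ≤ N := by exact_mod_cast hMN
    have h2 : ‖∑ n ∈ range M, ee (g n)‖ ≤ N := (triv_bound M g).trans h1
    have h3 : ‖∑ n ∈ range M, ee (g n)‖ ^ 2 ≤ (N : ℝ) ^ 2 := pow_le_pow_left₀ (norm_nonneg _) h2 2
    have h4 : (N : ℝ) ^ 2 ≤ l ^ 2 * (N : ℝ) ^ 2 := by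
      have : 1 ≤ l ^ 2 := one_le_pow₀ hl1
      nlinarith [sq_nonneg (N : ℝ)]
    have h5 : 1 ≤ 60 * A * L := by nlinarith
    have h6 : 0 ≤ s ^ 3 + s / l ^ 3 + (N : ℝ) / l ^ 2 := by positivity
    calc _ ≤ 1 * (l ^ 2 * (N : ℝ) ^ 2 + s ^ 3 + s / l ^ 3 + (N : ℝ) / l ^ 2) := by linarith
      _ ≤ _ := mul_le_mul_of_nonneg_right h5 (by positivity)
  have hl2 : l ^ 2 < 1 := by nlinarith
  have hl20 : 0 < l ^ 2 := by positivity
  set q := 1 / l ^ 2 with hq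
  have hq1 : 1 ≤ q := by rw [hq, le_div_iff₀ hl20]; linarith
  set H := min N ⌊q⌋₊ with hH
  have hH1 : 1 ≤ H := le_min hN (Nat.floor_pos.2 hq1)
  have hHN : H ≤ N := min_le_left _ _
  have hH1R : (1 : ℝ) ≤ H := by exact_mod_cast hH1
  have hH0 : (0 : ℝ) < H := by linarith
  have hHq : (H : ℝ) ≤ q := by
    have h1 : (H : ℝ) ≤ (⌊q⌋₊ : ℝ) := by exact_mod_cast min_le_right _ _
    exact h1.trans (Nat.floor_le (by linarith))
  have hHinv : 1 / (H : ℝ) ≤ 1 / N + 2 * l ^ 2 := by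
    rcases le_total N ⌊q⌋₊ with h | h
    · have : H = N := min_eq_left h
      rw [this]
      linarith
    · have hHf : H = ⌊q⌋₊ := min_eq_right h
      have h1 : q < (⌊q⌋₊ : ℝ) + 1 := Nat.lt_floor_add_one q
      have h2 : (1 : ℝ) ≤ ⌊q⌋₊ := by exact_mod_cast Nat.floor_pos.2 hq1
      have h3 : q ≤ 2 * H := by rw [hHf]; linarith
      have h4 : 1 / (H : ℝ) ≤ 2 / q := by
        rw [div_le_div_iff₀ hH0 (by linarith)]; linarith
      have h5 : 2 / q = 2 * l ^ 2 := by rw [hq]; field_simp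
      have h6 : 0 < 1 / (N : ℝ) := by positivity
      linarith
  set r := √(H : ℝ) with hr
  have hr1 : 1 ≤ r := by rw [hr, Real.one_le_sqrt]; exact hH1R
  have hr0 : 0 < r := by linarith
  have hr2 : r ^ 2 = H := Real.sq_sqrt hH0.le
  have hrl : r * l ≤ 1 := by
    have h1 : (r * l) ^ 2 ≤ 1 := by
      rw [mul_pow, hr2]
      calc (H : ℝ) * l ^ 2 ≤ q * l ^ 2 := mul_le_mul_of_nonneg_right hHq hl20.le
        _ = 1 := by rw [hq]; field_simp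
    nlinarith [mul_pos hr0 hl]
  have hrinv : 1 / r ≤ 1 / s + 2 * l := by
    have h1 : (1 / r) ^ 2 ≤ (1 / s + 2 * l) ^ 2 := by
      rw [div_pow, one_pow, hr2]
      refine hHinv.trans ?_
      have : (1 / s + 2 * l) ^ 2 = 1 / s ^ 2 + 4 * (l / s) + 4 * l ^ 2 := by field_simp; ring
      rw [this, hs2]
      have : 0 < l / s := by positivity
      linarith
    exact (pow_le_pow_iff_left₀ (by positivity) (by positivity) two_ne_zero).1 h1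
  set S : ℕ → ℝ := fun h => ‖∑ n ∈ range (M - h), ee ((fun n => g (n + h) - g n) n)‖ with hSdef
  have hSh : ∀ h ∈ Ico 1 H, S h ^ 2 ≤ 34 * A * (l ^ 6 * (N : ℝ) ^ 2 * h + L * N + L / l ^ 6 * (1 / (h : ℝ))) := by
    intro h hh
    rw [mem_Ico] at hh
    have hh0 : (0 : ℝ) < h := by exact_mod_cast hh.1
    have h1 := vdc3 A hA N (M - h) (fun n => g (n + h) - g n) (h * l ^ 6) hN (by omega)
      (cond_diff (k := 2) hc hh.1) (by positivity)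
    refine h1.trans (le_of_eq ?_)
    rw [← hL]
    field_simp
  set T := ∑ h ∈ Ico 1 H, S h with hT
  have hT0 : 0 ≤ T := Finset.sum_nonneg fun _ _ => norm_nonneg _
  have hcard : ((Ico 1 H).card : ℝ) ≤ H := by
    rw [Nat.card_Ico]
    exact_mod_cast Nat.sub_le _ _
  have hT2 : T ^ 2 ≤ 34 * A * (l ^ 6 * (N : ℝ) ^ 2 * (H : ℝ) ^ 3 + L * N * (H : ℝ) ^ 2 + L ^ 2 / l ^ 6 * H) := by
    have h1 : T ^ 2 ≤ (Ico 1 H).card * ∑ h ∈ Ico 1 H, S h ^ 2 := sq_sum_le_card_mul_sum_sq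
    have h2 : ∑ h ∈ Ico 1 H, S h ^ 2 ≤ 34 * A * (l ^ 6 * (N : ℝ) ^ 2 * (H : ℝ) ^ 2 + L * N * H + L ^ 2 / l ^ 6) := by
      refine (Finset.sum_le_sum hSh).trans ?_
      have e0 : ∑ h ∈ Ico 1 H, 34 * A * (l ^ 6 * (N : ℝ) ^ 2 * h + L * N + L / l ^ 6 * (1 / (h : ℝ))) =
          34 * A * (l ^ 6 * (N : ℝ) ^ 2 * ∑ h ∈ Ico 1 H, (h : ℝ) + (Ico 1 H).card * (L * N) +
            L / l ^ 6 * ∑ h ∈ Ico 1 H, (1 / (h : ℝ))) := by
        rw [Finset.mul_sum, Finset.mul_sum, ← nsmul_eq_mul, ← Finset.sum_const, ← Finset.sum_add_distrib,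
          ← Finset.sum_add_distrib, Finset.mul_sum]
      rw [e0]
      apply mul_le_mul_of_nonneg_left _ (by positivity)
      have i1 : ∑ h ∈ Ico 1 H, (h : ℝ) ≤ (H : ℝ) ^ 2 := by
        calc ∑ h ∈ Ico 1 H, (h : ℝ) ≤ ∑ h ∈ Ico 1 H, (H : ℝ) := by
              apply Finset.sum_le_sum
              intro h hh
              rw [mem_Ico] at hh
              exact_mod_cast hh.2.le
          _ = (Ico 1 H).card * (H : ℝ) := by rw [Finset.sum_const, nsmul_eq_mul]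
          _ ≤ H * H := mul_le_mul_of_nonneg_right hcard hH0.le
          _ = _ := by ring
      have i2 : ∑ h ∈ Ico 1 H, (1 / (h : ℝ)) ≤ L := sum_inv_le hHN
      have i3 : L / l ^ 6 * ∑ h ∈ Ico 1 H, (1 / (h : ℝ)) ≤ L ^ 2 / l ^ 6 := by
        calc _ ≤ L / l ^ 6 * L := mul_le_mul_of_nonneg_left i2 (by positivity)
          _ = _ := by ring
      have i4 : ((Ico 1 H).card : ℝ) * (L * N) ≤ L * N * H := by
        rw [mul_comm]
        exact mul_le_mul_of_nonneg_left hcard (by positivity)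
      have i5 := mul_le_mul_of_nonneg_left i1 (show 0 ≤ l ^ 6 * (N : ℝ) ^ 2 by positivity)
      linarith
    calc T ^ 2 ≤ (Ico 1 H).card * ∑ h ∈ Ico 1 H, S h ^ 2 := h1
      _ ≤ H * (34 * A * (l ^ 6 * (N : ℝ) ^ 2 * (H : ℝ) ^ 2 + L * N * H + L ^ 2 / l ^ 6)) :=
          mul_le_mul hcard h2 (Finset.sum_nonneg fun _ _ => by positivity) hH0.le
      _ = _ := by ring
  set B := √L with hB
  have hB1 : 1 ≤ B := by rw [hB, Real.one_le_sqrt]; exact hL1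
  have hB2 : B ^ 2 = L := Real.sq_sqrt hL0.le
  have hBL : B ≤ L := by nlinarith
  have hT3 : T ≤ 6 * A * (r ^ 3 * l ^ 3 * N + B * s * r ^ 2 + L * r / l ^ 3) := by
    have h1 : T ^ 2 ≤ (6 * A * (r ^ 3 * l ^ 3 * N + B * s * r ^ 2 + L * r / l ^ 3)) ^ 2 := by
      refine hT2.trans ?_
      have e1 : (H : ℝ) ^ 3 = r ^ 6 := by rw [← hr2]; ring
      have e2 : (H : ℝ) ^ 2 = r ^ 4 := by rw [← hr2]; ring
      rw [e1, e2, ← hr2]
      have e4 : L * N * r ^ 4 = (B * s * r ^ 2) ^ 2 := by rw [← hB2, ← hs2]; ring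
      have e5 : l ^ 6 * (N : ℝ) ^ 2 * r ^ 6 = (r ^ 3 * l ^ 3 * N) ^ 2 := by ring
      have e6 : L ^ 2 / l ^ 6 * r ^ 2 = (L * r / l ^ 3) ^ 2 := by rw [div_pow, mul_pow, ← pow_mul]; ring
      rw [e4, e5, e6]
      exact sq3_le hA (by positivity) (by positivity) (by positivity)
    exact (pow_le_pow_iff_left₀ hT0 (by positivity) two_ne_zero).1 h1
  have hv := vdc_ineq' M N H hMN hH1 hHN g
  refine hv.trans ?_
  have hv2 : 2 * (N : ℝ) / H * ((N : ℝ) + 2 * T) = 2 * (N : ℝ) ^ 2 * (1 / H) + 4 * N * (T / H) := by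
    field_simp
    ring
  rw [hv2]
  have k1 : 2 * (N : ℝ) ^ 2 * (1 / H) ≤ 2 * N + 4 * (l ^ 2 * (N : ℝ) ^ 2) := by
    calc 2 * (N : ℝ) ^ 2 * (1 / H) ≤ 2 * (N : ℝ) ^ 2 * (1 / N + 2 * l ^ 2) :=
          mul_le_mul_of_nonneg_left hHinv (by positivity)
      _ = _ := by field_simp; ring
  have k2 : T / H ≤ 6 * A * (l ^ 2 * N + B * s + L / l ^ 3 * (1 / s + 2 * l)) := by
    rw [div_le_iff₀ hH0]
    refine hT3.trans ?_
    rw [mul_assoc (6 * A)]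
    apply mul_le_mul_of_nonneg_left _ (by positivity)
    rw [← hr2]
    have m1 : r ^ 3 * l ^ 3 * N ≤ l ^ 2 * N * r ^ 2 := by
      calc r ^ 3 * l ^ 3 * N = (l ^ 2 * N * r ^ 2) * (r * l) := by ring
        _ ≤ (l ^ 2 * N * r ^ 2) * 1 := mul_le_mul_of_nonneg_left hrl (by positivity)
        _ = _ := mul_one _
    have m2 : L * r / l ^ 3 ≤ L / l ^ 3 * (1 / s + 2 * l) * r ^ 2 := by
      calc L * r / l ^ 3 = L / l ^ 3 * r ^ 2 * (1 / r) := by field_simp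
        _ ≤ L / l ^ 3 * r ^ 2 * (1 / s + 2 * l) := mul_le_mul_of_nonneg_left hrinv (by positivity)
        _ = _ := by ring
    have m3 : (l ^ 2 * N + B * s + L / l ^ 3 * (1 / s + 2 * l)) * r ^ 2 =
        l ^ 2 * N * r ^ 2 + B * s * r ^ 2 + L / l ^ 3 * (1 / s + 2 * l) * r ^ 2 := by ring
    rw [m3]
    linarith
  have k3 : 4 * N * (T / H) ≤ 24 * A * (l ^ 2 * (N : ℝ) ^ 2 + B * s ^ 3 + L * (s / l ^ 3) + 2 * (L * (N / l ^ 2))) := by
    calc 4 * N * (T / H) ≤ 4 * N * (6 * A * (l ^ 2 * N + B * s + L / l ^ 3 * (1 / s + 2 * l))) :=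
          mul_le_mul_of_nonneg_left k2 (by positivity)
      _ = _ := by rw [← hs2]; field_simp; ring
  have hNs : (N : ℝ) ≤ s ^ 3 := by
    rw [← hs2]; nlinarith [sq_nonneg s]
  have n1 : 2 * (N : ℝ) ≤ 2 * (A * L * s ^ 3) := by
    have : 1 ≤ A * L := by nlinarith
    have h3 : 0 ≤ s ^ 3 := by positivity
    nlinarith
  have n2 : 4 * (l ^ 2 * (N : ℝ) ^ 2) ≤ 4 * (A * L * (l ^ 2 * (N : ℝ) ^ 2)) := by
    have : 1 ≤ A * L := by nlinarith
    have h3 : 0 ≤ l ^ 2 * (N : ℝ) ^ 2 := by positivity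
    nlinarith
  have n3 : A * (l ^ 2 * (N : ℝ) ^ 2) ≤ A * L * (l ^ 2 * (N : ℝ) ^ 2) := by
    have h3 : 0 ≤ A * (l ^ 2 * (N : ℝ) ^ 2) := by positivity
    nlinarith
  have n4 : A * (B * s ^ 3) ≤ A * L * s ^ 3 := by
    have h3 : 0 ≤ A * s ^ 3 := by positivity
    nlinarith
  have p1 : 0 ≤ A * L * (s / l ^ 3) := by positivity
  have p2 : 0 ≤ A * L * (N / l ^ 2) := by positivity
  have p3 : 0 ≤ A * L * (l ^ 2 * (N : ℝ) ^ 2) := by positivity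
  have p4 : 0 ≤ A * L * s ^ 3 := by positivity
  have e5 : 24 * A * (l ^ 2 * (N : ℝ) ^ 2 + B * s ^ 3 + L * (s / l ^ 3) + 2 * (L * (N / l ^ 2))) =
    24 * (A * (l ^ 2 * (N : ℝ) ^ 2)) + 24 * (A * (B * s ^ 3)) + 24 * (A * L * (s / l ^ 3)) + 48 * (A * L * (N / l ^ 2)) := by ring
  have e6 : 60 * A * L * (l ^ 2 * (N : ℝ) ^ 2 + s ^ 3 + s / l ^ 3 + N / l ^ 2) =
    60 * (A * L * (l ^ 2 * (N : ℝ) ^ 2)) + 60 * (A * L * s ^ 3) + 60 * (A * L * (s / l ^ 3)) + 60 * (A * L * (N / l ^ 2)) := by ring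
  rw [e6]
  rw [e5] at k3
  linarith

end Pool.Agent.H25.GC
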