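import Mathlib
import Pool.Agent.H25.GC.T3
import Pool.Graph.R_pool_sql_team_seeded_3dad9d7b.NH14.SM.S2

/-! The kernel of square roots: the bound by the third derivative test. -/

set_option autoImplicit false

namespace Pool.Agent.H25.GC

open Finset
open Pool.Agent.Helper153.Vdc
open Pool.Agent.H469R2.NK (e norm_e)
open Pool.Agent.H425R3.MM (blk blk_sum ker)
open Pool.Agent.K7.H55.AN (e_eq_ee ee_conj)

/-- forward differences of functions of a real variable -/
def fd : ℕ → (ℝ → ℝ) → ℝ → ℝ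
  | 0, f => f
  | k + 1, f => fd k (fun x => f (x + 1) - f x)

lemma dd_fd : ∀ (k : ℕ) (f : ℝ → ℝ) (n : ℕ), dd k (fun n => f n) n = fd k f n := by
  intro k
  induction k with
  | zero => intro f n; rfl
  | succ k ih =>
    intro f n
    have h := ih (fun x => f (x + 1) - f x) n
    simp only [dd, fd]
    rw [← h]
    simp only [Nat.cast_add, Nat.cast_one]

lemma fd_mvt : ∀ (k : ℕ) (F : ℕ → ℝ → ℝ) (a : ℝ),
    (∀ j < k, ∀ x ∈ Set.Icc a (a + k), HasDerivAt (F j) (F (j + 1) x) x) →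
    ∃ ξ ∈ Set.Icc a (a + k), fd k (F 0) a = F k ξ := by
  intro k
  induction k with
  | zero =>
    intro F a _
    exact ⟨a, by simp, rfl⟩
  | succ k ih =>
    intro F a hF
    have hG : ∀ j < k, ∀ x ∈ Set.Icc a (a + k),
        HasDerivAt (fun y => F j (y + 1) - F j y) (F (j + 1) (x + 1) - F (j + 1) x) x := by
      intro j hj x hx
      have h1 := hF j (by omega) x ⟨hx.1, by push_cast; linarith [hx.2]⟩
      have h2 := hF j (by omega) (x + 1) ⟨by linarith [hx.1], by push_cast; linarith [hx.2]⟩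
      exact (h2.comp_add_const x 1).sub h1
    obtain ⟨ξ, hξ, h1⟩ := ih (fun j y => F j (y + 1) - F j y) a hG
    have hd : ∀ x ∈ Set.Icc ξ (ξ + 1), HasDerivAt (F k) (F (k + 1) x) x := by
      intro x hx
      exact hF k (by omega) x ⟨hξ.1.trans hx.1, by push_cast; linarith [hξ.2, hx.2]⟩
    obtain ⟨η, hη, h2⟩ := exists_hasDerivAt_eq_slope (F k) (F (k + 1)) (by linarith : ξ < ξ + 1)
      (fun x hx => (hd x hx).continuousAt.continuousWithinAt)
      (fun x hx => hd x ⟨hx.1.le, hx.2.le⟩)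
    refine ⟨η, ⟨by linarith [hξ.1, hη.1], by push_cast; linarith [hξ.2, hη.2]⟩, ?_⟩
    have h3 : fd (k + 1) (F 0) a = fd k (fun y => F 0 (y + 1) - F 0 y) a := rfl
    rw [h3, h1, h2]
    ring

/-- the derivatives of `-u √(c - x)` -/
noncomputable def Fs (u c : ℝ) (j : ℕ) (x : ℝ) : ℝ :=
  match j with
  | 0 => -u * (c - x) ^ (1 / 2 : ℝ)
  | 1 => u * (1 / 2) * (c - x) ^ (-(1 / 2) : ℝ)
  | 2 => u * (1 / 4) * (c - x) ^ (-(3 / 2) : ℝ)
  | 3 => u * (3 / 8) * (c - x) ^ (-(5 / 2) : ℝ)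
  | _ => u * (15 / 16) * (c - x) ^ (-(7 / 2) : ℝ)

lemma hasDeriv_cx (c p x : ℝ) (hx : x < c) : HasDerivAt (fun y => (c - y) ^ p) (-(p * (c - x) ^ (p - 1))) x := by
  have h1 : HasDerivAt (fun y : ℝ => c - y) (-1) x := by
    simpa using (hasDerivAt_id x).const_sub c
  have h2 := h1.rpow_const (p := p) (Or.inl (by linarith : c - x ≠ 0))
  convert h2 using 1
  ring

lemma Fs_deriv (u c : ℝ) (j : ℕ) (hj : j < 4) (x : ℝ) (hx : x < c) :
    HasDerivAt (Fs u c j) (Fs u c (j + 1) x) x := by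
  interval_cases j
  · have h := (hasDeriv_cx c (1/2) x hx).const_mul (-u)
    refine HasDerivAt.congr_deriv h ?_
    simp only [Fs]
    rw [show (1 / 2 : ℝ) - 1 = -(1 / 2) by norm_num]
    ring
  · have h := (hasDeriv_cx c (-(1/2)) x hx).const_mul (u * (1 / 2))
    refine HasDerivAt.congr_deriv h ?_
    simp only [Fs]
    rw [show (-(1 / 2) : ℝ) - 1 = -(3 / 2) by norm_num]
    ring
  · have h := (hasDeriv_cx c (-(3/2)) x hx).const_mul (u * (1 / 4))
    refine HasDerivAt.congr_deriv h ?_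
    simp only [Fs]
    rw [show (-(3 / 2) : ℝ) - 1 = -(5 / 2) by norm_num]
    ring
  · have h := (hasDeriv_cx c (-(5/2)) x hx).const_mul (u * (3 / 8))
    refine HasDerivAt.congr_deriv h ?_
    simp only [Fs]
    rw [show (-(5 / 2) : ℝ) - 1 = -(7 / 2) by norm_num]
    ring

/-- the third differences of the reversed square roots -/
lemma cond_sqrt3 {u : ℝ} (hu : 0 < u) (M L : ℕ) (hM : 1 ≤ M) (hL : L ≤ 3 * M) :
    Cond 3 (fun n : ℕ => -u * √((M : ℝ) + L - 1 - n)) L (u * (3 / 8) * (4 * (M : ℝ)) ^ (-(5 / 2) : ℝ)) 32 := by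
  have hM1 : (1 : ℝ) ≤ M := by exact_mod_cast hM
  have hLR : (L : ℝ) ≤ 3 * M := by exact_mod_cast hL
  set c : ℝ := (M : ℝ) + L - 1 with hc
  have e0 : (fun n : ℕ => -u * √((M : ℝ) + L - 1 - n)) = (fun n : ℕ => Fs u c 0 (n : ℝ)) := by
    funext n
    simp only [Fs, Real.sqrt_eq_rpow, hc]
  rw [e0]
  constructor
  · intro n hn
    have hnR : (n : ℝ) + 3 ≤ L - 1 := by
      have : n + 3 + 1 ≤ L := by omega
      have : ((n + 3 + 1 : ℕ) : ℝ) ≤ L := by exact_mod_cast this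
      push_cast at this
      linarith
    rw [dd_fd]
    obtain ⟨ξ, hξ, h1⟩ := fd_mvt 3 (Fs u c) n (by
      intro j hj x hx
      apply Fs_deriv u c j (by omega)
      have := hx.2
      push_cast at this
      rw [hc]; linarith)
    rw [h1]
    have x1 : (n : ℝ) ≤ ξ := hξ.1
    have x2 : ξ ≤ n + 3 := by have := hξ.2; push_cast at this; exact this
    have hn0 : (0 : ℝ) ≤ n := Nat.cast_nonneg n
    have y1 : (M : ℝ) ≤ c - ξ := by rw [hc]; linarith
    have y2 : c - ξ ≤ 4 * M := by rw [hc]; linarith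
    have hM0 : (0 : ℝ) < M := by linarith
    simp only [Fs]
    constructor
    · apply mul_le_mul_of_nonneg_left _ (by positivity)
      exact Real.rpow_le_rpow_of_nonpos (by linarith) y2 (by norm_num)
    · have z1 : (c - ξ) ^ (-(5 / 2) : ℝ) ≤ (M : ℝ) ^ (-(5 / 2) : ℝ) :=
        Real.rpow_le_rpow_of_nonpos hM0 y1 (by norm_num)
      have z2 : (4 * (M : ℝ)) ^ (-(5 / 2) : ℝ) = (1 / 32) * (M : ℝ) ^ (-(5 / 2) : ℝ) := by
        rw [Real.mul_rpow (by norm_num) hM0.le]
        congr 1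
        rw [show (4 : ℝ) = 2 ^ (2 : ℝ) by norm_num, ← Real.rpow_mul (by norm_num)]
        norm_num
      rw [z2]
      calc u * (3 / 8) * (c - ξ) ^ (-(5 / 2) : ℝ) ≤ u * (3 / 8) * (M : ℝ) ^ (-(5 / 2) : ℝ) :=
            mul_le_mul_of_nonneg_left z1 (by positivity)
        _ = _ := by ring
  · intro n hn
    have hnR : (n : ℝ) + 4 ≤ L - 1 := by
      have : n + 4 + 1 ≤ L := by omega
      have : ((n + 4 + 1 : ℕ) : ℝ) ≤ L := by exact_mod_cast this
      push_cast at this
      linarith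
    rw [dd_fd]
    obtain ⟨ξ, hξ, h1⟩ := fd_mvt 4 (Fs u c) n (by
      intro j hj x hx
      apply Fs_deriv u c j (by omega)
      have := hx.2
      push_cast at this
      rw [hc]; linarith)
    rw [h1]
    have x2 : ξ ≤ n + 4 := by have := hξ.2; push_cast at this; exact this
    have y1 : 0 < c - ξ := by rw [hc]; linarith
    simp only [Fs]
    positivity

/-- reversal of the sum -/
lemma sum_rev (u : ℝ) (M L : ℕ) :
    ‖∑ n ∈ range L, e (u * √((M : ℝ) + n))‖ = ‖∑ n ∈ range L, ee (-u * √((M : ℝ) + L - 1 - n))‖ := by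
  have h1 : ∑ n ∈ range L, ee (-u * √((M : ℝ) + L - 1 - n)) =
      (starRingEnd ℂ) (∑ n ∈ range L, e (u * √((M : ℝ) + n))) := by
    rw [map_sum, ← Finset.sum_range_reflect]
    apply sum_congr rfl
    intro n hn
    rw [mem_range] at hn
    rw [e_eq_ee, ee_conj]
    congr 1
    have : ((L - 1 - n : ℕ) : ℝ) = L - 1 - n := by
      rw [Nat.sub_sub, Nat.cast_sub (by omega)]; push_cast; ring
    rw [this, neg_mul]
    congr 3
    ring
  rw [h1, Complex.norm_conj]

end Pool.Agent.H25.GC
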