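import Mathlib
import Pool.Agent.H25.GC.FD

/-! The kernel of square roots on a block: second and third derivative tests together. -/

set_option autoImplicit false

namespace Pool.Agent.H25.GC

open Finset
open Pool.Agent.Helper153.Vdc
open Pool.Agent.H469R2.NK (e norm_e)
open Pool.Agent.H425R3.MM
open Pool.Agent.NH14.SM

lemma sixth_le {a b : ℝ} (ha : 0 ≤ a) (hb : 0 ≤ b) (h : a ^ 6 ≤ b ^ 6) : a ≤ b :=
  (pow_le_pow_iff_left₀ ha hb (by norm_num)).1 h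

/-- the kernel at large arguments -/
lemma ker3 (j : ℕ) {u w : ℝ} (hu : ((2:ℝ)^j)^2 ≤ u) (hw : 0 < w) (hwu : w ^ 6 * ((2:ℝ)^j) ^ 5 = u) :
    ‖∑ m ∈ blk j, e (u * √(m:ℝ))‖ ≤
      900 * √(1 + Real.log ((4^j + 1 : ℕ) : ℝ)) * (w * ((2:ℝ)^j) ^ 2 + √((2:ℝ)^j) ^ 3) := by
  set Q : ℝ := (2:ℝ)^j with hQ
  have hQ1 : 1 ≤ Q := one_le_pow₀ (by norm_num)
  have hQ0 : 0 < Q := by linarith
  have h4Q : (4:ℝ)^j = Q^2 := four_eq j
  set M : ℕ := 4^j + 1 with hM
  have hM1 : 1 ≤ M := by rw [hM]; exact Nat.le_add_left _ _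
  have hMR : (M : ℝ) = Q^2 + 1 := by rw [hM]; push_cast; rw [h4Q]
  have hMQ : (M : ℝ) ≤ 2 * Q^2 := by rw [hMR]; nlinarith
  have hMQ' : Q^2 ≤ M := by rw [hMR]; linarith
  have hM0 : (0:ℝ) < M := by rw [hMR]; positivity
  have hM1' : (1:ℝ) ≤ M := by exact_mod_cast hM1
  have hu0 : 0 < u := lt_of_lt_of_le (by positivity) hu
  set r := √Q with hr
  have hr1 : 1 ≤ r := by rw [hr, Real.one_le_sqrt]; exact hQ1
  have hr0 : 0 < r := by linarith
  have hr2 : r ^ 2 = Q := Real.sq_sqrt hQ0.le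
  -- l
  set lam : ℝ := u * (3 / 8) * (4 * (M : ℝ)) ^ (-(5 / 2) : ℝ) with hlam
  have hlam0 : 0 < lam := by positivity
  set l : ℝ := lam ^ (1 / 6 : ℝ) with hl
  have hl0 : 0 < l := by positivity
  have hl6 : l ^ 6 = lam := by
    rw [hl, ← Real.rpow_natCast, ← Real.rpow_mul hlam0.le]; norm_num
  have e52 : ∀ c : ℝ, 0 < c → (c ^ 2 * Q ^ 2) ^ (-(5 / 2) : ℝ) = 1 / (c ^ 5 * Q ^ 5) := by
    intro c hc
    rw [show c ^ 2 * Q ^ 2 = (c * Q) ^ 2 by ring, ← Real.rpow_natCast (c * Q) 2, ← Real.rpow_mul (by positivity),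
      show ((2 : ℕ) : ℝ) * -(5 / 2) = -((5 : ℕ) : ℝ) by norm_num, Real.rpow_neg (by positivity),
      Real.rpow_natCast, mul_pow, one_div]
  have hlow : w / 3 ≤ l := by
    apply sixth_le (by positivity) hl0.le
    rw [hl6, hlam]
    have h1 : ((3 : ℝ) ^ 2 * Q ^ 2) ^ (-(5 / 2) : ℝ) ≤ (4 * (M : ℝ)) ^ (-(5 / 2) : ℝ) :=
      Real.rpow_le_rpow_of_nonpos (by positivity) (by linarith) (by norm_num)
    rw [e52 3 (by norm_num)] at h1
    calc (w / 3) ^ 6 = u * (1 / 729) * (1 / Q ^ 5) := by rw [← hwu]; field_simp; norm_num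
      _ ≤ u * (3 / 8) * (1 / (3 ^ 5 * Q ^ 5)) := by
          have : u * (3 / 8) * (1 / (3 ^ 5 * Q ^ 5)) - u * (1 / 729) * (1 / Q ^ 5) = u * (1 / Q ^ 5) * (3 / 8 / 243 - 1 / 729) := by
            field_simp; norm_num
          have h2 : 0 ≤ u * (1 / Q ^ 5) * (3 / 8 / 243 - 1 / 729) := by
            apply mul_nonneg (by positivity) (by norm_num)
          linarith
      _ ≤ _ := mul_le_mul_of_nonneg_left h1 (by positivity)
  have hupp : l ≤ w / 2 := by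
    apply sixth_le hl0.le (by positivity)
    rw [hl6, hlam]
    have h1 : (4 * (M : ℝ)) ^ (-(5 / 2) : ℝ) ≤ ((2 : ℝ) ^ 2 * Q ^ 2) ^ (-(5 / 2) : ℝ) :=
      Real.rpow_le_rpow_of_nonpos (by positivity) (by linarith) (by norm_num)
    rw [e52 2 (by norm_num)] at h1
    calc _ ≤ u * (3 / 8) * (1 / (2 ^ 5 * Q ^ 5)) := mul_le_mul_of_nonneg_left h1 (by positivity)
      _ ≤ u * (1 / 64) * (1 / Q ^ 5) := by
          have : u * (1 / 64) * (1 / Q ^ 5) - u * (3 / 8) * (1 / (2 ^ 5 * Q ^ 5)) = u * (1 / Q ^ 5) * (1 / 64 - 3 / 8 / 32) := by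
            field_simp; norm_num
          have h2 : 0 ≤ u * (1 / Q ^ 5) * (1 / 64 - 3 / 8 / 32) := by
            apply mul_nonneg (by positivity) (by norm_num)
          linarith
      _ = (w / 2) ^ 6 := by rw [← hwu]; field_simp; norm_num
  have hwr : 1 ≤ w * r := by
    apply sixth_le (by norm_num) (by positivity)
    have h1 : (w * r) ^ 6 * Q ^ 2 = u := by
      calc (w * r) ^ 6 * Q ^ 2 = w ^ 6 * (r ^ 2) ^ 3 * Q ^ 2 := by ring
        _ = w ^ 6 * Q ^ 5 := by rw [hr2]; ring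
        _ = u := hwu
    have h2 : Q ^ 2 * 1 ≤ Q ^ 2 * (w * r) ^ 6 := by
      rw [mul_one, mul_comm, h1]; exact hu
    have := le_of_mul_le_mul_left h2 (by positivity)
    linarith
  -- the sum
  rw [blk_sum, ← hM, sum_rev]
  have hL : 3 * 4^j ≤ 3 * M := by omega
  have hcond := cond_sqrt3 hu0 M (3 * 4^j) hM1 hL
  rw [← hlam, ← hl6] at hcond
  have h1 := vdc_third 32 (by norm_num) (3 * M) (3 * 4^j) _ l (by omega) hL hcond hl0
  have hN : ((3 * M : ℕ) : ℝ) ≤ 6 * Q^2 := by push_cast; linarith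
  have hN0 : (0:ℝ) < ((3 * M : ℕ) : ℝ) := by push_cast; positivity
  set N : ℝ := ((3 * M : ℕ) : ℝ) with hNdef
  have hsN : √N ≤ 5 / 2 * Q := by
    rw [Real.sqrt_le_left (by positivity)]
    nlinarith
  have hsN0 : 0 ≤ √N := Real.sqrt_nonneg _
  have hlogM : 0 ≤ Real.log M := Real.log_nonneg hM1'
  have hlogN : 1 + Real.log N ≤ 3 * (1 + Real.log M) := by
    have : Real.log N = Real.log 3 + Real.log M := by
      rw [hNdef]; push_cast
      rw [Real.log_mul (by norm_num) hM0.ne']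
    have h3 : Real.log 3 ≤ 2 := by
      have := Real.log_le_sub_one_of_pos (show (0:ℝ) < 3 by norm_num)
      linarith
    rw [this]; linarith
  have hlogN0 : 0 ≤ 1 + Real.log N := by
    have : 0 ≤ Real.log N := Real.log_nonneg (by rw [hNdef]; push_cast; linarith)
    linarith
  set G := 1 + Real.log (M : ℝ) with hG
  have hG0 : 0 < G := by linarith
  have hwl : w ≤ 3 * l := by linarith
  have hQr : Q ^ 3 = (r ^ 3) ^ 2 := by rw [← hr2]; ring
  -- the four terms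
  have t1 : l ^ 2 * N ^ 2 ≤ 9 * (w * Q ^ 2) ^ 2 := by
    calc l ^ 2 * N ^ 2 ≤ (w / 2) ^ 2 * (6 * Q ^ 2) ^ 2 := by gcongr
      _ = _ := by ring
  have t2 : √N ^ 3 ≤ 16 * (r ^ 3) ^ 2 := by
    calc √N ^ 3 ≤ (5 / 2 * Q) ^ 3 := by gcongr
      _ = (125 / 8) * Q ^ 3 := by ring
      _ ≤ 16 * Q ^ 3 := by have : 0 ≤ Q ^ 3 := by positivity
                           linarith
      _ = _ := by rw [hQr]
  have hrl : 1 ≤ 3 * (l * r) := by nlinarith
  have t3 : √N / l ^ 3 ≤ 68 * (r ^ 3) ^ 2 := by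
    rw [div_le_iff₀ (by positivity)]
    have i1 : 1 ≤ (3 * (l * r)) ^ 3 := one_le_pow₀ hrl
    calc √N ≤ 5 / 2 * Q := hsN
      _ ≤ 5 / 2 * Q * (3 * (l * r)) ^ 3 := le_mul_of_one_le_right (by positivity) i1
      _ = 67.5 * (r ^ 5) * l ^ 3 := by rw [← hr2]; ring
      _ ≤ 68 * (r ^ 3) ^ 2 * l ^ 3 := by
          apply mul_le_mul_of_nonneg_right _ (by positivity)
          have : r ^ 5 ≤ (r ^ 3) ^ 2 := by
            rw [← pow_mul]; exact pow_le_pow_right₀ hr1 (by norm_num)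
          have h5 : 0 ≤ r ^ 5 := by positivity
          linarith
  have t4 : N / l ^ 2 ≤ 54 * (r ^ 3) ^ 2 := by
    rw [div_le_iff₀ (by positivity)]
    have i1 : 1 ≤ (3 * (l * r)) ^ 2 := one_le_pow₀ hrl
    calc N ≤ 6 * Q ^ 2 := hN
      _ ≤ 6 * Q ^ 2 * (3 * (l * r)) ^ 2 := le_mul_of_one_le_right (by positivity) i1
      _ = _ := by rw [← hr2]; ring
  have h2 : ‖∑ n ∈ range (3 * 4^j), ee (-u * √((M : ℝ) + ((3 * 4^j : ℕ) : ℝ) - 1 - n))‖ ^ 2 ≤
      (900 * √G * (w * Q ^ 2 + r ^ 3)) ^ 2 := by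
    refine h1.trans ?_
    set a := w * Q ^ 2 with ha
    set b := r ^ 3 with hb
    have ha0 : 0 < a := by positivity
    have hb0 : 0 < b := by positivity
    calc 60 * 32 * (1 + Real.log N) * (l ^ 2 * N ^ 2 + √N ^ 3 + √N / l ^ 3 + N / l ^ 2)
        ≤ 60 * 32 * (3 * G) * (9 * a ^ 2 + 16 * b ^ 2 + 68 * b ^ 2 + 54 * b ^ 2) := by
          apply mul_le_mul _ (by linarith) (by positivity) (by positivity)
          exact mul_le_mul_of_nonneg_left hlogN (by norm_num)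
      _ ≤ 810000 * G * (a + b) ^ 2 := by
          have e1 : 810000 * G * (a + b) ^ 2 - 60 * 32 * (3 * G) * (9 * a ^ 2 + 16 * b ^ 2 + 68 * b ^ 2 + 54 * b ^ 2) =
            G * (758160 * a ^ 2 + 1620000 * (a * b) + 15120 * b ^ 2) := by ring
          have e2 : 0 ≤ G * (758160 * a ^ 2 + 1620000 * (a * b) + 15120 * b ^ 2) := by positivity
          linarith
      _ = _ := by
          rw [mul_pow, mul_pow, Real.sq_sqrt hG0.le]; norm_num
  exact (pow_le_pow_iff_left₀ (norm_nonneg _) (by positivity) two_ne_zero).1 h2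

/-- the kernel at all arguments up to `H` -/
lemma ker23 (j : ℕ) {u w : ℝ} (hu : 0 < u) (hw : 0 < w) (huw : u ≤ w ^ 6 * ((2:ℝ)^j) ^ 5) :
    ‖∑ m ∈ blk j, e (u * √(m:ℝ))‖ ≤
      (if u ≤ √(((4^j + 1 : ℕ)) : ℝ) then 8 * √(((4^j + 1 : ℕ)) : ℝ) / u else 0) +
      900 * √(1 + Real.log ((4^j + 1 : ℕ) : ℝ)) * (w * ((2:ℝ)^j) ^ 2 + √((2:ℝ)^j) ^ 3) := by
  set Q : ℝ := (2:ℝ)^j with hQ
  have hQ1 : 1 ≤ Q := one_le_pow₀ (by norm_num)
  have hQ0 : 0 < Q := by linarith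
  have h4Q : (4:ℝ)^j = Q^2 := four_eq j
  set M : ℕ := 4^j + 1 with hM
  have hM1 : 1 ≤ M := by rw [hM]; exact Nat.le_add_left _ _
  have hMR : (M : ℝ) = Q^2 + 1 := by rw [hM]; push_cast; rw [h4Q]
  have hM1' : (1:ℝ) ≤ M := by exact_mod_cast hM1
  have hlogM : 0 ≤ Real.log M := Real.log_nonneg hM1'
  rcases le_or_gt u (Q ^ 2) with h | h
  · have h1 : ‖∑ m ∈ blk j, e (u * √(m:ℝ))‖ ≤
        (if u ≤ √(M:ℝ) then 8 * √(M:ℝ) / u else 0) + 23 * √(u * √(M:ℝ) * (1 + Real.log M)) := by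
      rw [blk_sum, ← hM]
      exact ker hu hM1 (3 * 4^j) (by omega)
    refine h1.trans (add_le_add le_rfl ?_)
    have hsM : √(M:ℝ) ≤ 2 * Q := by
      rw [Real.sqrt_le_left (by positivity), hMR]
      nlinarith
    have h2 : √(u * √(M:ℝ) * (1 + Real.log M)) ≤ √2 * √Q ^ 3 * √(1 + Real.log M) := by
      have : u * √(M:ℝ) * (1 + Real.log M) ≤ 2 * (Q ^ 3) * (1 + Real.log M) := by
        apply mul_le_mul_of_nonneg_right _ (by linarith)
        calc u * √(M:ℝ) ≤ Q ^ 2 * (2 * Q) := by gcongr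
          _ = _ := by ring
      refine (Real.sqrt_le_sqrt this).trans (le_of_eq ?_)
      rw [Real.sqrt_mul (by positivity), Real.sqrt_mul (by norm_num)]
      congr 2
      rw [Real.sqrt_eq_iff_mul_self_eq (by positivity) (by positivity)]
      have := Real.sq_sqrt hQ0.le
      calc Q ^ 3 = (√Q ^ 2) ^ 3 := by rw [this]
        _ = √Q ^ 3 * √Q ^ 3 := by ring
    have h3 : √2 ≤ 2 := by
      rw [Real.sqrt_le_left (by norm_num)]; norm_num
    have h4 : 0 ≤ √Q ^ 3 := by positivity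
    have h5 : 0 ≤ √(1 + Real.log (M:ℝ)) := Real.sqrt_nonneg _
    calc 23 * √(u * √(M:ℝ) * (1 + Real.log M)) ≤ 23 * (√2 * √Q ^ 3 * √(1 + Real.log M)) := by linarith
      _ ≤ 23 * (2 * √Q ^ 3 * √(1 + Real.log M)) := by gcongr
      _ = 46 * √(1 + Real.log M) * (√Q ^ 3) := by ring
      _ ≤ 900 * √(1 + Real.log M) * (w * Q ^ 2 + √Q ^ 3) := by
          have h6 : 0 ≤ w * Q ^ 2 := by positivity
          gcongr
          · norm_num
          · linarith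
  · set w' : ℝ := (u / Q ^ 5) ^ (1 / 6 : ℝ) with hw'
    have hw'0 : 0 < w' := by positivity
    have h6 : w' ^ 6 * Q ^ 5 = u := by
      have : w' ^ 6 = u / Q ^ 5 := by
        rw [hw', ← Real.rpow_natCast, ← Real.rpow_mul (by positivity)]; norm_num
      rw [this]; field_simp
    have hww : w' ≤ w := by
      apply sixth_le hw'0.le hw.le
      have : w' ^ 6 * Q ^ 5 ≤ w ^ 6 * Q ^ 5 := by rw [h6]; exact huw
      exact le_of_mul_le_mul_right this (by positivity)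
    have h1 := ker3 j h.le hw'0 h6
    refine h1.trans ?_
    have h2 : 0 ≤ (if u ≤ √(M:ℝ) then 8 * √(M:ℝ) / u else 0) := by
      split_ifs
      · positivity
      · exact le_rfl
    have h3 : 900 * √(1 + Real.log (M : ℝ)) * (w' * Q ^ 2 + √Q ^ 3) ≤
        900 * √(1 + Real.log (M : ℝ)) * (w * Q ^ 2 + √Q ^ 3) := by gcongr
    linarith

/-- the sum of the kernel over a separated set in a window -/
lemma kerW (j : ℕ) {S : Finset ℝ} {x H δ W : ℝ} (hδ : 0 < δ) (hδ1 : δ ≤ 1) (hsep : Sep δ S) (hW0 : 0 ≤ W)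
    (hW : ∀ u : ℝ, 0 < u → u ≤ H → ‖∑ m ∈ blk j, e (u * √(m:ℝ))‖ ≤
      (if u ≤ √(((4^j + 1 : ℕ)) : ℝ) then 8 * √(((4^j + 1 : ℕ)) : ℝ) / u else 0) + W)
    (hS : ∀ t ∈ S, x ≤ t ∧ t ≤ x + H) {t : ℝ} (ht : t ∈ S) :
    ∑ t' ∈ S, ‖∑ m ∈ blk j, e ((t - t') * √(m:ℝ))‖ ≤
      3 * (4:ℝ)^j + 8 * √((4^j + 1 : ℕ) : ℝ) * (2 / δ * (1 + Real.log (2 * √((4^j + 1 : ℕ) : ℝ) / δ))) +
      S.card * W := by
  classical
  set M : ℕ := 4^j + 1 with hM
  have hM1 : 1 ≤ M := by rw [hM]; exact Nat.le_add_left _ _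
  have hM1' : (1:ℝ) ≤ M := by exact_mod_cast hM1
  set s := √(M:ℝ) with hs
  have hs1 : 1 ≤ s := by rw [hs, Real.one_le_sqrt]; exact hM1'
  have hterm : ∀ t' ∈ S.erase t, ‖∑ m ∈ blk j, e ((t - t') * √(m:ℝ))‖ ≤
      (if |t - t'| ≤ s then 8 * s * (1 / |t - t'|) else 0) + W := by
    intro t' ht'
    rw [mem_erase] at ht'
    have h1 := hS t ht
    have h2 := hS t' ht'.2
    have hd0 : 0 < |t - t'| := abs_pos.mpr (sub_ne_zero.mpr (Ne.symm ht'.1))
    have hd2 : |t - t'| ≤ H := by rw [abs_le]; constructor <;> linarith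
    have e1 : ‖∑ m ∈ blk j, e ((t - t') * √(m:ℝ))‖ = ‖∑ m ∈ blk j, e (|t - t'| * √(m:ℝ))‖ := by
      rcases abs_cases (t - t') with ⟨h5, _⟩ | ⟨h5, _⟩
      · rw [h5]
      · rw [h5, blk_neg]
    rw [e1]
    refine (hW _ hd0 hd2).trans (add_le_add ?_ le_rfl)
    split_ifs with h5
    · exact le_of_eq (by ring)
    · exact le_rfl
  have hdiag : ‖∑ m ∈ blk j, e ((t - t) * √(m:ℝ))‖ ≤ 3 * (4:ℝ)^j := by
    refine (norm_sum_le _ _).trans ?_
    simp only [norm_e, sum_const, blk, Nat.card_Ioc, nsmul_eq_mul, mul_one]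
    have : 4^(j+1) - 4^j = 3 * 4^j := by rw [pow_succ]; omega
    rw [this]; push_cast; exact le_rfl
  rw [← add_sum_erase _ _ ht]
  have hE : ((S.erase t).card : ℝ) ≤ S.card := by exact_mod_cast card_erase_le
  have hrest : ∑ t' ∈ S.erase t, ‖∑ m ∈ blk j, e ((t - t') * √(m:ℝ))‖ ≤
      8 * s * (2 / δ * (1 + Real.log (2 * s / δ))) + S.card * W := by
    calc _ ≤ ∑ t' ∈ S.erase t, ((if |t - t'| ≤ s then 8 * s * (1 / |t - t'|) else 0) + W) := sum_le_sum hterm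
      _ = 8 * s * ∑ t' ∈ (S.erase t).filter (fun t' => |t - t'| ≤ s), 1 / |t - t'| + (S.erase t).card * W := by
          rw [sum_add_distrib, ← sum_filter, sum_const, nsmul_eq_mul, mul_sum]
      _ ≤ _ := by
          apply add_le_add
          · apply mul_le_mul_of_nonneg_left _ (by positivity)
            exact near_sum hδ hsep ht (by linarith)
          · exact mul_le_mul_of_nonneg_right hE hW0
  linarith

end Pool.Agent.H25.GC
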