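import Mathlib
import Pool.Agent.H25.GC.Ker

/-! Large values of the block sums at well-spaced points, with the third derivative test. -/

set_option autoImplicit false

namespace Pool.Agent.H25.GC

open Finset
open Pool.Agent.H469R2.NK
open Pool.Agent.H425R3.MM
open Pool.Agent.NH14.SM

/-- one window, third derivative test -/
theorem winR3 {κ C1 : ℝ} (hκ : 0 < κ) (hκ1 : κ ≤ 1) (hC1 : 0 < C1) : ∃ D : ℝ, 0 < D ∧
    ∀ (j : ℕ) (b : ℕ → ℂ) (g v δ Z x w : ℝ) (S : Finset ℝ), 0 < v → 0 ≤ g → g ≤ 1 → 1 ≤ Z → 1 / Z ≤ δ → δ ≤ 1 →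
    (2:ℝ)^j ≤ 2 * Z → 0 < w → (∀ m ∈ blk j, ‖b m‖ ≤ C1 * g * ((2:ℝ)^j) ^ (-(3/2) + κ)) → Sep δ S →
    (∀ t ∈ S, x ≤ t ∧ t ≤ x + w ^ 6 * ((2:ℝ)^j) ^ 5) → (∀ t ∈ S, v ≤ ‖Fb b j t‖) →
    (S.card : ℝ) * v^2 ≤ D * (Z ^ κ) ^ 4 * (g^2 * ((2:ℝ)^j + 1 / δ) + S.card * (w * (2:ℝ)^j + √((2:ℝ)^j))) := by
  set c2 : ℝ := 900 * √(2 + 2/κ) with hc2
  have hc20 : 0 ≤ c2 := by positivity
  set c3 : ℝ := 32 * (4 + 2/κ) with hc3
  have hc30 : 0 < c3 := by positivity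
  set D : ℝ := 3 * C1^2 * (3 + c3 + c2) * 8 + 1 with hD
  have hD0 : 0 < D := by positivity
  refine ⟨D, hD0, ?_⟩
  intro j b g v δ Z x w S hv hg0 hg1 hZ hδZ hδ1 hjZ hw hb hsep hS hvS
  set Q : ℝ := (2:ℝ)^j with hQ
  have hQ1 : 1 ≤ Q := one_le_pow₀ (by norm_num)
  have hQ0 : 0 < Q := by linarith
  have hZ0 : 0 < Z := by linarith
  have hδ0 : 0 < δ := lt_of_lt_of_le (by positivity) hδZ
  have h4Q : (4:ℝ)^j = Q^2 := four_eq j
  set L := Z ^ κ with hL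
  have hL1 : 1 ≤ L := Real.one_le_rpow hZ hκ.le
  have hQκ : Q ^ κ ≤ 2 * L := by
    calc Q ^ κ ≤ (2 * Z) ^ κ := Real.rpow_le_rpow hQ0.le hjZ hκ.le
      _ = 2 ^ κ * L := by rw [Real.mul_rpow (by norm_num) hZ0.le]
      _ ≤ 2 * L := by
          apply mul_le_mul_of_nonneg_right _ (by linarith)
          calc (2:ℝ) ^ κ ≤ 2 ^ (1:ℝ) := Real.rpow_le_rpow_of_exponent_le (by norm_num) hκ1
            _ = 2 := Real.rpow_one 2
  have hQκ0 : 0 < Q ^ κ := by positivity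
  have hQ2κ : Q ^ (2 * κ) ≤ 4 * L ^ 2 := by
    have : Q ^ (2 * κ) = (Q ^ κ) ^ 2 := by
      rw [← Real.rpow_natCast, ← Real.rpow_mul hQ0.le]; congr 1; push_cast; ring
    rw [this]
    calc (Q ^ κ) ^ 2 ≤ (2 * L) ^ 2 := pow_le_pow_left₀ hQκ0.le hQκ 2
      _ = _ := by ring
  have hQhalf : Q ^ (κ / 2) ≤ 2 * L := by
    calc Q ^ (κ / 2) ≤ Q ^ κ := Real.rpow_le_rpow_of_exponent_le hQ1 (by linarith)
      _ ≤ 2 * L := hQκ
  -- the l² norm
  have hl2 : ∑ m ∈ blk j, ‖b m‖^2 ≤ 3 * C1^2 * g^2 * Q ^ (-1 + 2 * κ) := by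
    calc ∑ m ∈ blk j, ‖b m‖^2 ≤ ∑ m ∈ blk j, (C1 * g * Q ^ (-(3/2) + κ))^2 :=
          sum_le_sum (fun m hm => pow_le_pow_left₀ (norm_nonneg _) (hb m hm) 2)
      _ = 3 * Q^2 * (C1 * g * Q ^ (-(3/2) + κ))^2 := by rw [sum_const, nsmul_eq_mul, blk_card, h4Q]
      _ = 3 * C1^2 * g^2 * (Q^2 * (Q ^ (-(3/2) + κ))^2) := by ring
      _ = _ := by
          congr 1
          rw [← Real.rpow_natCast Q 2, ← Real.rpow_natCast (Q ^ (-(3/2) + κ)) 2, ← Real.rpow_mul hQ0.le, ← Real.rpow_add hQ0]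
          congr 1; push_cast; ring
  have hsM : √(((4^j + 1 : ℕ)) : ℝ) ≤ 2 * Q := by
    rw [Real.sqrt_le_left (by positivity)]
    push_cast
    rw [h4Q]
    nlinarith
  have hsM0 : 0 < √(((4^j + 1 : ℕ)) : ℝ) := Real.sqrt_pos.mpr (by positivity)
  have hnear : 8 * √((4^j + 1 : ℕ) : ℝ) * (2 / δ * (1 + Real.log (2 * √((4^j + 1 : ℕ) : ℝ) / δ))) ≤ c3 * (Q / δ) * L := by
    have h1 : 1 + Real.log (2 * √((4^j + 1 : ℕ) : ℝ) / δ) ≤ (4 + 2/κ) * L := by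
      apply log_Z_le hκ hZ (by positivity)
      rw [div_le_iff₀ hδ0]
      have h2 : 1 ≤ Z * δ := by
        rw [div_le_iff₀ hZ0] at hδZ
        linarith
      calc 2 * √((4^j + 1 : ℕ) : ℝ) ≤ 2 * (2 * (2 * Z)) := by linarith
        _ = 8 * Z * 1 := by ring
        _ ≤ 8 * Z * (Z * δ) := by gcongr
        _ ≤ 16 * Z ^ 2 * δ := by nlinarith [mul_pos (mul_pos hZ0 hZ0) hδ0]
    have h0 : 0 ≤ (4 + 2/κ) * L := by positivity
    have h2 : 8 * √((4^j + 1 : ℕ) : ℝ) * (2 / δ * (1 + Real.log (2 * √((4^j + 1 : ℕ) : ℝ) / δ))) ≤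
        8 * √((4^j + 1 : ℕ) : ℝ) * (2 / δ * ((4 + 2/κ) * L)) :=
      mul_le_mul_of_nonneg_left (mul_le_mul_of_nonneg_left h1 (by positivity)) (by positivity)
    refine h2.trans ?_
    calc _ ≤ 8 * (2 * Q) * (2 / δ * ((4 + 2/κ) * L)) := by gcongr
      _ = _ := by rw [hc3]; ring
  have hW : 900 * √(1 + Real.log ((4^j + 1 : ℕ) : ℝ)) * (w * Q ^ 2 + √Q ^ 3) ≤ c2 * (Q ^ (κ/2) * (w * Q ^ 2 + √Q ^ 3)) := by
    have h1 : √(1 + Real.log ((4^j + 1 : ℕ) : ℝ)) ≤ √(2 + 2/κ) * Q ^ (κ/2) := by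
      have e1 : (Q ^ (κ/2)) ^ 2 = Q ^ κ := by
        rw [← Real.rpow_natCast, ← Real.rpow_mul hQ0.le]; congr 1; push_cast; ring
      refine (Real.sqrt_le_sqrt (log_M_le hκ j)).trans (le_of_eq ?_)
      rw [Real.sqrt_mul (show 0 ≤ 2 + 2/κ by positivity), ← e1, Real.sqrt_sq (by positivity)]
    have h3 : 0 ≤ w * Q ^ 2 + √Q ^ 3 := by positivity
    calc _ ≤ 900 * (√(2 + 2/κ) * Q ^ (κ/2)) * (w * Q ^ 2 + √Q ^ 3) := by gcongr
      _ = _ := by rw [hc2]; ring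
  have hK : ∀ t ∈ S, ∑ t' ∈ S, ‖∑ m ∈ blk j, e ((t - t') * √(m:ℝ))‖ ≤
      3 * Q^2 + c3 * (Q / δ) * L + S.card * (c2 * (Q ^ (κ/2) * (w * Q ^ 2 + √Q ^ 3))) := by
    intro t ht
    refine (kerW (W := 900 * √(1 + Real.log ((4^j + 1 : ℕ) : ℝ)) * (w * Q ^ 2 + √Q ^ 3)) j hδ0 hδ1 hsep
      (by positivity) (fun u hu huH => ker23 j hu hw huH) hS ht).trans ?_
    rw [h4Q]
    apply add_le_add (add_le_add le_rfl hnear)
    exact mul_le_mul_of_nonneg_left hW (Nat.cast_nonneg _)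
  have h1 := dualR S (blk j) b (fun m => √(m:ℝ)) hv.le (by positivity) hvS hl2 hK
  refine h1.trans ?_
  have e2 : Q ^ (-1 + 2 * κ) = Q ^ (2 * κ) / Q := by
    rw [Real.rpow_add hQ0, Real.rpow_neg_one]; ring
  rw [e2]
  have hcard : (0:ℝ) ≤ S.card := Nat.cast_nonneg _
  have hg2 : g^2 ≤ 1 := by nlinarith
  have hg20 : 0 ≤ g^2 := sq_nonneg g
  set r := √Q with hr
  have hr0 : 0 < r := Real.sqrt_pos.mpr hQ0
  have hr2 : r ^ 2 = Q := Real.sq_sqrt hQ0.le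
  have e3 : 3 * C1^2 * g^2 * (Q ^ (2 * κ) / Q) * (3 * Q^2 + c3 * (Q / δ) * L + S.card * (c2 * (Q ^ (κ/2) * (w * Q ^ 2 + r ^ 3)))) =
      3 * C1^2 * Q ^ (2 * κ) * (g^2 * (3 * Q + c3 * (1 / δ) * L) + c2 * (g^2 * (S.card * (w * Q + r) * Q ^ (κ/2)))) := by
    have e4 : w * Q ^ 2 + r ^ 3 = Q * (w * Q + r) := by rw [← hr2]; ring
    rw [e4]
    field_simp
  rw [e3]
  have i1 : g^2 * (3 * Q + c3 * (1 / δ) * L) ≤ (3 + c3) * L * (g^2 * (Q + 1 / δ)) := by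
    have k1 : 3 * Q + c3 * (1 / δ) * L ≤ (3 + c3) * L * (Q + 1 / δ) := by
      have : 0 < 1 / δ := by positivity
      have a1 : 1 * Q ≤ L * Q := mul_le_mul_of_nonneg_right hL1 hQ0.le
      have a2 : 0 ≤ L * (1 / δ) := by positivity
      have a3 : 0 ≤ c3 * L * Q := by positivity
      have a4 : (3 + c3) * L * (Q + 1 / δ) = 3 * (L * Q) + 3 * (L * (1 / δ)) + c3 * L * Q + c3 * (1 / δ) * L := by ring
      rw [a4]
      linarith
    calc _ ≤ g^2 * ((3 + c3) * L * (Q + 1 / δ)) := mul_le_mul_of_nonneg_left k1 hg20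
      _ = _ := by ring
  set P1 := g^2 * (Q + 1 / δ) with hP1
  set P2 := (S.card : ℝ) * (w * Q + r) with hP2
  have hP10 : 0 ≤ P1 := by positivity
  have hP20 : 0 ≤ P2 := by positivity
  have i2 : c2 * (g^2 * (P2 * Q ^ (κ/2))) ≤ c2 * (2 * L * P2) := by
    apply mul_le_mul_of_nonneg_left _ hc20
    calc g^2 * (P2 * Q ^ (κ/2)) ≤ 1 * (P2 * (2 * L)) := by gcongr
      _ = _ := by ring
  calc 3 * C1^2 * Q ^ (2 * κ) * (g^2 * (3 * Q + c3 * (1 / δ) * L) + c2 * (g^2 * (P2 * Q ^ (κ/2))))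
      ≤ 3 * C1^2 * (4 * L^2) * ((3 + c3) * L * P1 + c2 * (2 * L * P2)) := by gcongr
    _ = (3 * C1^2 * (3 + c3) * 4) * L^3 * P1 + (3 * C1^2 * c2 * 8) * L^3 * P2 := by ring
    _ ≤ D * L^4 * P1 + D * L^4 * P2 := by
        have j0 : D = 24 * (C1^2 * (3 + c3)) + 24 * (C1^2 * c2) + 1 := by rw [hD]; ring
        have j5 : 0 ≤ C1^2 * c2 := by positivity
        have j6 : 0 ≤ C1^2 * (3 + c3) := by positivity
        have j1 : 3 * C1^2 * (3 + c3) * 4 ≤ D := by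
          have : 3 * C1^2 * (3 + c3) * 4 = 12 * (C1^2 * (3 + c3)) := by ring
          rw [this]; linarith
        have j2 : 3 * C1^2 * c2 * 8 ≤ D := by
          have : 3 * C1^2 * c2 * 8 = 24 * (C1^2 * c2) := by ring
          rw [this]; linarith
        have j3 : L^3 ≤ L^4 := pow_le_pow_right₀ hL1 (by norm_num)
        apply add_le_add
        · gcongr
        · gcongr
    _ = _ := by ring

/-- the number of points from the number of points in windows -/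
lemma card_windows {S : Finset ℝ} {x H Hw P : ℝ} (hH : 0 ≤ H) (hHw0 : 0 < Hw) (hP : 0 ≤ P)
    (hS : ∀ t ∈ S, x ≤ t ∧ t ≤ x + H)
    (hone : ∀ (i : ℕ) (T : Finset ℝ), T ⊆ S → (∀ t ∈ T, x + i * Hw ≤ t ∧ t ≤ x + i * Hw + Hw) → (T.card : ℝ) ≤ P) :
    (S.card : ℝ) ≤ (H / Hw + 1) * P := by
  classical
  have hone' : ∀ i : ℕ, ((S.filter (fun t => ⌊(t - x) / Hw⌋₊ = i)).card : ℝ) ≤ P := by
    intro i
    apply hone i _ (filter_subset _ _)
    intro t ht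
    rw [mem_filter] at ht
    have h1 := (hS t ht.1).1
    have h2 := Nat.floor_le (show 0 ≤ (t - x) / Hw by
      apply div_nonneg _ hHw0.le
      linarith)
    have h3 := Nat.lt_floor_add_one ((t - x) / Hw)
    rw [ht.2] at h2 h3
    rw [le_div_iff₀ hHw0] at h2
    rw [div_lt_iff₀ hHw0] at h3
    constructor <;> nlinarith
  have h1 : S.card = ∑ i ∈ range (⌊H / Hw⌋₊ + 1), (S.filter (fun t => ⌊(t - x) / Hw⌋₊ = i)).card := by
    apply card_eq_sum_card_fiberwise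
    intro t ht
    rw [mem_coe, mem_range]
    have h2 := (hS t ht).2
    have h3 : ⌊(t - x) / Hw⌋₊ ≤ ⌊H / Hw⌋₊ := by
      apply Nat.floor_le_floor
      gcongr
      linarith
    exact Nat.lt_succ_of_le h3
  rw [h1]
  push_cast
  refine (sum_le_sum fun i _ => hone' i).trans ?_
  rw [sum_const, card_range, nsmul_eq_mul]
  apply mul_le_mul_of_nonneg_right _ hP
  push_cast
  have := Nat.floor_le (show 0 ≤ H / Hw by positivity)
  linarith

/-- large values of a block -/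
theorem lvR10 {κ C1 : ℝ} (hκ : 0 < κ) (hκ1 : κ ≤ 1) (hC1 : 0 < C1) : ∃ D : ℝ, 0 < D ∧
    ∀ (j : ℕ) (b : ℕ → ℂ) (v δ d Z x H : ℝ) (S : Finset ℝ), 0 < v → 0 < d → 1 ≤ Z → 1 / Z ≤ δ → δ ≤ 1 →
    (2:ℝ)^j ≤ 2 * Z → 0 ≤ H →
    (∀ m ∈ blk j, ‖b m‖ ≤ C1 * min 1 ((d * (2:ℝ)^j) ^ (-(3/2):ℝ)) * ((2:ℝ)^j) ^ (-(3/2) + κ)) → Sep δ S →
    (∀ t ∈ S, x ≤ t ∧ t ≤ x + H) → (∀ t ∈ S, v ≤ ‖Fb b j t‖) →
    (S.card : ℝ) ≤ D * (Z ^ κ) ^ 28 * (H / v^6 + H / (v^10 * δ) + 1 / (v^2 * d) + 1 / (v^2 * δ)) := by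
  classical
  obtain ⟨D2, hD2, hwin2⟩ := winR hκ hκ1 hC1
  obtain ⟨D3, hD3, hwin3⟩ := winR3 hκ hκ1 hC1
  set D : ℝ := D2 + D3 + 1 with hD
  have hD0 : 0 < D := by positivity
  have hD1 : 1 ≤ D := by rw [hD]; linarith
  refine ⟨2 * 8 ^ 6 * D ^ 7, by positivity, ?_⟩
  intro j b v δ d Z x H S hv hd hZ hδZ hδ1 hjZ hH hb hsep hS hvS
  set Q : ℝ := (2:ℝ)^j with hQ
  have hQ1 : 1 ≤ Q := one_le_pow₀ (by norm_num)
  have hQ0 : 0 < Q := by linarith
  have hZ0 : 0 < Z := by linarith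
  have hδ0 : 0 < δ := lt_of_lt_of_le (by positivity) hδZ
  set L := Z ^ κ with hL
  have hL1 : 1 ≤ L := Real.one_le_rpow hZ hκ.le
  have hL0 : 0 < L := by linarith
  set g : ℝ := min 1 ((d * Q) ^ (-(3/2):ℝ)) with hg
  have hg0 : 0 < g := by positivity
  have hg1 : g ≤ 1 := min_le_left _ _
  have hg2 : g^2 ≤ 1 := by nlinarith
  -- g² Q ≤ 1 / d
  have hgQ : g^2 * Q ≤ 1 / d := by
    rcases le_total (d * Q) 1 with h | h
    · have h1 : Q ≤ 1 / d := by rw [le_div_iff₀ hd]; linarith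
      nlinarith
    · have h1 : g ≤ (d * Q) ^ (-(3/2):ℝ) := min_le_right _ _
      have h2 : g^2 ≤ (d * Q) ^ (-(3:ℝ)) := by
        calc g^2 ≤ ((d * Q) ^ (-(3/2):ℝ))^2 := pow_le_pow_left₀ hg0.le h1 2
          _ = _ := by rw [← Real.rpow_natCast, ← Real.rpow_mul (by positivity)]; norm_num
      have h3 : (d * Q) ^ (-(3:ℝ)) ≤ (d * Q) ^ (-(1:ℝ)) := Real.rpow_le_rpow_of_exponent_le h (by norm_num)
      rw [Real.rpow_neg_one] at h3
      calc g^2 * Q ≤ (d * Q)⁻¹ * Q := mul_le_mul_of_nonneg_right (h2.trans h3) hQ0.le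
        _ = 1 / d := by field_simp
  set B : ℝ := g^2 * (Q + 1 / δ) with hB
  have hB0 : 0 < B := by positivity
  have hB1 : B ≤ Q + 1 / δ := by
    rw [hB]
    calc g^2 * (Q + 1 / δ) ≤ 1 * (Q + 1 / δ) := mul_le_mul_of_nonneg_right hg2 (by positivity)
      _ = _ := one_mul _
  have hB2 : B ≤ 1 / d + 1 / δ := by
    rw [hB, mul_add]
    apply add_le_add hgQ
    calc g^2 * (1 / δ) ≤ 1 * (1 / δ) := mul_le_mul_of_nonneg_right hg2 (by positivity)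
      _ = _ := one_mul _
  have hP0 : 0 ≤ 2 * D * L^4 * B / v^2 := by positivity
  have t2 : 2 * D * L^4 * B / v^2 ≤ 2 * 8 ^ 6 * D ^ 7 * L^28 * (1 / (v^2 * d) + 1 / (v^2 * δ)) := by
    have a1 : D * L^4 ≤ D ^ 7 * L ^ 28 := by
      have h1 : D ≤ D ^ 7 := by
        calc D = D ^ 1 := (pow_one D).symm
          _ ≤ D ^ 7 := pow_le_pow_right₀ hD1 (by norm_num)
      have h2 : L ^ 4 ≤ L ^ 28 := pow_le_pow_right₀ hL1 (by norm_num)
      exact mul_le_mul h1 h2 (by positivity) (by positivity)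
    have a2 : 0 ≤ (1 / d + 1 / δ) / v ^ 2 := by positivity
    calc 2 * D * L^4 * B / v^2 ≤ 2 * D * L^4 * (1 / d + 1 / δ) / v^2 := by gcongr
      _ = 2 * (D * L ^ 4) * ((1 / d + 1 / δ) / v ^ 2) := by ring
      _ ≤ 2 * (D ^ 7 * L ^ 28) * ((1 / d + 1 / δ) / v ^ 2) := by gcongr
      _ ≤ 8 ^ 6 * (2 * (D ^ 7 * L ^ 28) * ((1 / d + 1 / δ) / v ^ 2)) :=
          le_mul_of_one_le_left (by positivity) (by norm_num)
      _ = _ := by field_simp
  rcases le_or_gt Q (v^4 / (64 * D^2 * L^8)) with hcase | hcase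
  · -- third derivative
    set w : ℝ := v^2 / (8 * D * L^4 * Q) with hw
    have hw0 : 0 < w := by positivity
    set Hw : ℝ := w ^ 6 * Q ^ 5 with hHw
    have hHw0 : 0 < Hw := by positivity
    have hsq : √Q ≤ v^2 / (8 * D * L^4) := by
      rw [Real.sqrt_le_left (by positivity)]
      refine hcase.trans (le_of_eq ?_)
      field_simp
      norm_num
    have hone : ∀ (i : ℕ) (T : Finset ℝ), T ⊆ S → (∀ t ∈ T, x + i * Hw ≤ t ∧ t ≤ x + i * Hw + Hw) →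
        (T.card : ℝ) ≤ 2 * D * L^4 * B / v^2 := by
      intro i T hTS hTw
      have h1 := hwin3 j b g v δ Z (x + i * Hw) w T hv hg0.le hg1 hZ hδZ hδ1 hjZ hw0 hb (hsep.subset hTS) hTw
        (fun t ht => hvS t (hTS ht))
      have h2 : w * Q = v^2 / (8 * D * L^4) := by rw [hw]; field_simp
      have h3 : (T.card : ℝ) * v^2 ≤ D * L^4 * (B + T.card * (v^2 / (4 * D * L^4))) := by
        refine h1.trans ?_
        have h4 : D3 * L^4 ≤ D * L^4 := mul_le_mul_of_nonneg_right (by rw [hD]; linarith) (by positivity)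
        apply mul_le_mul h4 _ (by positivity) (by positivity)
        apply add_le_add le_rfl
        apply mul_le_mul_of_nonneg_left _ (Nat.cast_nonneg _)
        rw [h2]
        calc v^2 / (8 * D * L^4) + √Q ≤ v^2 / (8 * D * L^4) + v^2 / (8 * D * L^4) := by linarith
          _ = _ := by field_simp; norm_num
      have h5 : D * L^4 * (B + T.card * (v^2 / (4 * D * L^4))) = D * L^4 * B + T.card * v^2 / 4 := by field_simp
      rw [h5] at h3
      rw [le_div_iff₀ (by positivity)]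
      have h6 : 0 ≤ (T.card : ℝ) * v^2 := by positivity
      linarith
    have hcard := card_windows hH hHw0 hP0 hS hone
    refine hcard.trans ?_
    have e1 : (H / Hw + 1) * (2 * D * L^4 * B / v^2) = 2 * 8 ^ 6 * D^7 * L^28 * (H * (Q * B)) / v^14 + 2 * D * L^4 * B / v^2 := by
      rw [hHw, hw]; field_simp
    rw [e1]
    have hQv : Q ≤ v^4 := by
      refine hcase.trans ?_
      apply div_le_self (by positivity)
      have h1 : 1 ≤ D^2 := one_le_pow₀ hD1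
      have h2 : 1 ≤ L^8 := one_le_pow₀ hL1
      nlinarith
    have hQB : Q * B ≤ v^8 + v^4 / δ := by
      calc Q * B ≤ Q * (Q + 1 / δ) := mul_le_mul_of_nonneg_left hB1 hQ0.le
        _ ≤ v^4 * (v^4 + 1 / δ) := by gcongr
        _ = _ := by ring
    have t1 : 2 * 8 ^ 6 * D^7 * L^28 * (H * (Q * B)) / v^14 ≤ 2 * 8 ^ 6 * D^7 * L^28 * (H / v^6 + H / (v^10 * δ)) := by
      calc _ ≤ 2 * 8 ^ 6 * D^7 * L^28 * (H * (v^8 + v^4 / δ)) / v^14 := by gcongr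
        _ = _ := by field_simp
    calc _ ≤ 2 * 8 ^ 6 * D^7 * L^28 * (H / v^6 + H / (v^10 * δ)) +
          2 * 8 ^ 6 * D ^ 7 * L^28 * (1 / (v^2 * d) + 1 / (v^2 * δ)) := add_le_add t1 t2
      _ = _ := by ring
  · -- second derivative
    set Hw : ℝ := v^4 * Q / (4 * D^2 * L^8) with hHw
    have hHw0 : 0 < Hw := by positivity
    have hone : ∀ (i : ℕ) (T : Finset ℝ), T ⊆ S → (∀ t ∈ T, x + i * Hw ≤ t ∧ t ≤ x + i * Hw + Hw) →
        (T.card : ℝ) ≤ 2 * D * L^4 * B / v^2 := by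
      intro i T hTS hTw
      have h1 := hwin2 j b g v δ Z (x + i * Hw) Hw T hv hg0.le hg1 hZ hδZ hδ1 hjZ hHw0.le hb (hsep.subset hTS) hTw
        (fun t ht => hvS t (hTS ht))
      have h2 : √(Hw / Q) = v^2 / (2 * D * L^4) := by
        have : Hw / Q = (v^2 / (2 * D * L^4))^2 := by rw [hHw]; field_simp; ring
        rw [this, Real.sqrt_sq (by positivity)]
      have h3 : (T.card : ℝ) * v^2 ≤ D * L^4 * (B + T.card * (v^2 / (2 * D * L^4))) := by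
        refine h1.trans ?_
        have h4 : D2 * L^4 ≤ D * L^4 := mul_le_mul_of_nonneg_right (by rw [hD]; linarith) (by positivity)
        rw [h2]
        exact mul_le_mul h4 le_rfl (by positivity) (by positivity)
      have h5 : D * L^4 * (B + T.card * (v^2 / (2 * D * L^4))) = D * L^4 * B + T.card * v^2 / 2 := by field_simp
      rw [h5] at h3
      rw [le_div_iff₀ (by positivity)]
      linarith
    have hcard := card_windows hH hHw0 hP0 hS hone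
    refine hcard.trans ?_
    have e1 : (H / Hw + 1) * (2 * D * L^4 * B / v^2) = 8 * D^3 * L^12 * (H * (B / Q)) / v^6 + 2 * D * L^4 * B / v^2 := by
      rw [hHw]; field_simp; ring
    rw [e1]
    have hQinv : 1 / Q ≤ 64 * D^2 * L^8 / v^4 := by
      rw [div_le_div_iff₀ hQ0 (by positivity)]
      rw [div_lt_iff₀ (by positivity)] at hcase
      linarith
    have hBQ : B / Q ≤ 1 + (64 * D^2 * L^8 / v^4) / δ := by
      have h1 : B / Q ≤ (Q + 1 / δ) / Q := by gcongr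
      have h2 : (Q + 1 / δ) / Q = 1 + (1 / Q) / δ := by field_simp
      rw [h2] at h1
      refine h1.trans ?_
      gcongr
    have t1 : 8 * D^3 * L^12 * (H * (B / Q)) / v^6 ≤ 2 * 8 ^ 6 * D^7 * L^28 * (H / v^6 + H / (v^10 * δ)) := by
      have a1 : 8 * D^3 * L^12 * (H * (B / Q)) / v^6 ≤ 8 * D^3 * L^12 * (H * (1 + (64 * D^2 * L^8 / v^4) / δ)) / v^6 := by gcongr
      refine a1.trans ?_
      have a2 : 8 * D^3 * L^12 * (H * (1 + (64 * D^2 * L^8 / v^4) / δ)) / v^6 =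
          8 * (D^3 * L^12) * (H / v^6) + 512 * (D^5 * L^20) * (H / (v^10 * δ)) := by
        field_simp
        ring
      rw [a2]
      have a3 : 0 ≤ H / v^6 := by positivity
      have a4 : 0 ≤ H / (v^10 * δ) := by positivity
      have b1 : D^3 * L^12 ≤ D^7 * L^28 :=
        mul_le_mul (pow_le_pow_right₀ hD1 (by norm_num)) (pow_le_pow_right₀ hL1 (by norm_num)) (by positivity) (by positivity)
      have b2 : D^5 * L^20 ≤ D^7 * L^28 :=
        mul_le_mul (pow_le_pow_right₀ hD1 (by norm_num)) (pow_le_pow_right₀ hL1 (by norm_num)) (by positivity) (by positivity)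
      have c1 := mul_le_mul_of_nonneg_right b1 a3
      have c2 := mul_le_mul_of_nonneg_right b2 a4
      have c3 : 0 ≤ D^7 * L^28 * (H / v^6) := by positivity
      have c4 : 0 ≤ D^7 * L^28 * (H / (v^10 * δ)) := by positivity
      have a8 : 2 * 8 ^ 6 * D^7 * L^28 * (H / v^6 + H / (v^10 * δ)) =
          2 * 8 ^ 6 * (D^7 * L^28 * (H / v^6)) + 2 * 8 ^ 6 * (D^7 * L^28 * (H / (v^10 * δ))) := by ring
      rw [a8]
      nlinarith
    calc _ ≤ 2 * 8 ^ 6 * D^7 * L^28 * (H / v^6 + H / (v^10 * δ)) +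
          2 * 8 ^ 6 * D ^ 7 * L^28 * (1 / (v^2 * d) + 1 / (v^2 * δ)) := add_le_add t1 t2
      _ = _ := by ring

end Pool.Agent.H25.GC
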