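import Mathlib
import Pool.Agent.H25.GC.LVMain
import Pool.Graph.R_pool_sql_team_seeded_3dad9d7b.NH14.SM.S6

/-! The measure of the set of radii near a radius with a large error term. -/

set_option autoImplicit false

open Finset Filter Topology MeasureTheory
open Pool.Agent.H387R2.Vor
open Pool.Agent.H383.AP Pool.Agent.H383.Gauss Pool.Agent.H383.Gen Pool.Agent.H383.Div Pool.Agent.H383.Circ
open Pool.Agent.H452R2 Pool.Agent.H452R2.Win
open Pool.Agent.H383
open Pool.Agent.NH14.SM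

namespace Pool.Agent.H25.GC

/-- the error term of the circle problem -/
noncomputable def P (t : ℝ) : ℝ :=
  (Nat.card {p : ℤ × ℤ // (p.1 : ℝ) ^ 2 + (p.2 : ℝ) ^ 2 ≤ t ^ 2} : ℝ) - Real.pi * t ^ 2

/-- large values at well-spaced points -/
theorem P_sep {ε : ℝ} (hε : 0 < ε) : ∃ C : ℝ, 0 < C ∧
    ∀ (X H δ V : ℝ) (T : Finset ℝ), 4 ≤ X → 0 ≤ H → H ≤ X → 1 / X ≤ δ → δ ≤ 1 → 1 ≤ V →
      (∀ t ∈ T, (X ≤ t ∧ t ≤ X + H) ∧ V * √t ≤ |P t|) → Sep δ T →
      (T.card : ℝ) ≤ C * X ^ ε * (H / V^6 + H / (V^10 * δ) + X ^ (1/2:ℝ) / V^3 + 1 / (V^2 * δ)) := by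
  obtain ⟨C, hC, h1⟩ := lv_sep10 (E := En) ag_Bdw ag_zero wg_Wt En_SandW hε
  refine ⟨C, hC, ?_⟩
  intro X H δ V T hX hH hHX hδX hδ1 hV hT hsep
  refine h1 X H δ V T hX hH hHX hδX hδ1 hV (fun t ht => ⟨(hT t ht).1, ?_⟩) hsep
  have ht0 : 0 < t := by linarith [(hT t ht).1.1]
  have hs : 0 < √t := Real.sqrt_pos.mpr ht0
  have h4 := (hT t ht).2
  have h5 : |P t| = √t * |En t| := by
    have : En t = P t / √t := rfl
    rw [this, abs_div, abs_of_pos hs]
    field_simp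
  rw [h5, mul_comm V] at h4
  exact le_of_mul_le_mul_left h4 hs

/-- the number of cells of length `δ` which contain a point of `A`, in terms of separated sets -/
lemma cells (A : Set ℝ) {δ Y B : ℝ} (hδ : 0 < δ) (n : ℕ)
    (hB : ∀ T : Finset ℝ, (∀ t ∈ T, t ∈ A ∧ Y ≤ t ∧ t ≤ Y + (n + 1) * δ) → Sep δ T → (T.card : ℝ) ≤ B) :
    ∃ I : Finset ℕ, (I.card : ℝ) ≤ 2 * B ∧ ∀ s ∈ A, Y ≤ s → s < Y + (n + 1) * δ →
      ∃ i ∈ I, Y + i * δ ≤ s ∧ s < Y + (i + 1) * δ := by
  classical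
  set I : Finset ℕ := (range (n + 1)).filter (fun i => ∃ s ∈ A, Y + i * δ ≤ s ∧ s < Y + (i + 1) * δ) with hI
  have hch : ∀ i : ℕ, ∃ s : ℝ, i ∈ I → s ∈ A ∧ Y + i * δ ≤ s ∧ s < Y + (i + 1) * δ := by
    intro i
    by_cases h : i ∈ I
    · obtain ⟨s, hs⟩ := (mem_filter.mp h).2
      exact ⟨s, fun _ => hs⟩
    · exact ⟨0, fun h' => absurd h' h⟩
  choose f hf using hch
  have hpar : ∀ r : ℕ, (((I.filter (fun i => i % 2 = r)).card : ℕ) : ℝ) ≤ B := by
    intro r
    set J := I.filter (fun i => i % 2 = r) with hJ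
    have hsep2 : ∀ i ∈ J, ∀ k ∈ J, i < k → δ ≤ f k - f i := by
      intro i hi k hk hik
      rw [hJ, mem_filter] at hi hk
      have h2 : i + 2 ≤ k := by omega
      have h3 : (i : ℝ) + 2 ≤ k := by exact_mod_cast h2
      obtain ⟨-, a1, a2⟩ := hf i hi.1
      obtain ⟨-, b1, b2⟩ := hf k hk.1
      nlinarith
    have hinj : Set.InjOn f J := by
      intro i hi k hk hik
      by_contra hne
      rcases lt_or_gt_of_ne hne with h | h
      · have := hsep2 i hi k hk h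
        linarith
      · have := hsep2 k hk i hi h
        linarith
    have h1 := hB (J.image f) (by
      intro t ht
      rw [mem_image] at ht
      obtain ⟨i, hi, rfl⟩ := ht
      rw [hJ, mem_filter] at hi
      obtain ⟨a0, a1, a2⟩ := hf i hi.1
      have hin : i < n + 1 := by
        have := (mem_filter.mp hi.1).1
        exact mem_range.mp this
      have hin' : (i : ℝ) + 1 ≤ n + 1 := by exact_mod_cast hin
      refine ⟨a0, ?_, ?_⟩
      · have : (0 : ℝ) ≤ i * δ := by positivity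
        linarith
      · nlinarith) (by
      intro x hx y hy hxy
      rw [mem_image] at hx hy
      obtain ⟨i, hi, rfl⟩ := hx
      obtain ⟨k, hk, rfl⟩ := hy
      have hne : i ≠ k := fun h => hxy (by rw [h])
      rcases lt_or_gt_of_ne hne with h | h
      · have := hsep2 i hi k hk h
        rw [abs_sub_comm]
        exact this.trans (le_abs_self _)
      · have := hsep2 k hk i hi h
        exact this.trans (le_abs_self _))
    rwa [card_image_of_injOn hinj] at h1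
  refine ⟨I, ?_, ?_⟩
  · have h1 : I = I.filter (fun i => i % 2 = 0) ∪ I.filter (fun i => i % 2 = 1) := by
      ext i
      simp only [mem_union, mem_filter]
      constructor
      · intro h
        rcases Nat.mod_two_eq_zero_or_one i with h' | h'
        · exact Or.inl ⟨h, h'⟩
        · exact Or.inr ⟨h, h'⟩
      · rintro (h | h) <;> exact h.1
    have h2 : (I.card : ℝ) ≤ ((I.filter (fun i => i % 2 = 0)).card : ℝ) + ((I.filter (fun i => i % 2 = 1)).card : ℝ) := by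
      have h3 : I.card ≤ (I.filter (fun i => i % 2 = 0)).card + (I.filter (fun i => i % 2 = 1)).card := by
        conv_lhs => rw [h1]
        exact card_union_le _ _
      exact_mod_cast h3
    have h3 := hpar 0
    have h4 := hpar 1
    linarith
  · intro s hs h1 h2
    have h0 : 0 ≤ (s - Y) / δ := div_nonneg (by linarith) hδ.le
    set i := ⌊(s - Y) / δ⌋₊ with hi
    have h3 := Nat.floor_le h0
    have h4 := Nat.lt_floor_add_one ((s - Y) / δ)
    rw [← hi] at h3 h4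
    rw [le_div_iff₀ hδ] at h3
    rw [div_lt_iff₀ hδ] at h4
    have h5 : i < n + 1 := by
      have h6 : (s - Y) / δ < (n : ℝ) + 1 := by
        rw [div_lt_iff₀ hδ]; linarith
      have h7 : (i : ℝ) < n + 1 := by
        have := Nat.floor_le h0
        rw [← hi] at this
        linarith
      exact_mod_cast h7
    have h8 : Y + i * δ ≤ s ∧ s < Y + (i + 1) * δ := ⟨by linarith, by linarith⟩
    exact ⟨i, mem_filter.mpr ⟨mem_range.mpr h5, s, hs, h8⟩, h8⟩

/-- the radii within `ρ` of a radius with `|P| ≥ V √s` -/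
def Near (V ρ : ℝ) : Set ℝ := {x | ∃ s : ℝ, |s - x| ≤ ρ ∧ V * √s ≤ |P s|}

/-- the measure of the radii of an interval near a radius with a large error term -/
theorem meas_near {ε : ℝ} (hε : 0 < ε) : ∃ C : ℝ, 0 < C ∧
    ∀ (X H ρ V : ℝ), 8 ≤ X → 0 ≤ H → H ≤ X / 2 → 2 / X ≤ ρ → ρ ≤ 1 → 1 ≤ V →
      volume (Near V ρ ∩ Set.Icc X (X + H)) ≤
        ENNReal.ofReal (C * X ^ ε * (ρ * H / V^6 + H / V^10 + ρ * X ^ (1/2:ℝ) / V^3 + 1 / V^2)) := by
  obtain ⟨C, hC, hsep⟩ := P_sep hε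
  refine ⟨24 * C, by positivity, ?_⟩
  intro X H ρ V hX hH hHX hρX hρ1 hV
  have hX0 : 0 < X := by linarith
  have hV0 : 0 < V := by linarith
  have hρ0 : 0 < ρ := lt_of_lt_of_le (by positivity) hρX
  set Y : ℝ := X - 1 with hY
  have hY0 : 0 < Y := by rw [hY]; linarith
  set A : Set ℝ := {s | V * √s ≤ |P s|} with hA
  set n : ℕ := ⌊(H + 2) / ρ⌋₊ with hn
  have hn1 := Nat.floor_le (show 0 ≤ (H + 2) / ρ by positivity)
  have hn2 := Nat.lt_floor_add_one ((H + 2) / ρ)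
  rw [← hn] at hn1 hn2
  rw [le_div_iff₀ hρ0] at hn1
  rw [div_lt_iff₀ hρ0] at hn2
  set G : ℝ := ρ * H / V^6 + H / V^10 + ρ * X ^ (1/2:ℝ) / V^3 + 1 / V^2 with hG
  have hG0 : 0 ≤ G := by positivity
  have hX1 : 1 ≤ X := by linarith
  have hYε : Y ^ ε ≤ X ^ ε := Real.rpow_le_rpow hY0.le (by rw [hY]; linarith) hε.le
  have hB : ∀ T : Finset ℝ, (∀ t ∈ T, t ∈ A ∧ Y ≤ t ∧ t ≤ Y + (n + 1) * ρ) → Sep ρ T →
      (T.card : ℝ) ≤ 4 * C * X ^ ε * (G / ρ) := by
    intro T hT hs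
    have h1 := hsep Y (H + 3) ρ V T (by rw [hY]; linarith) (by linarith) (by rw [hY]; linarith)
      (by
        rw [div_le_iff₀ hX0] at hρX
        rw [div_le_iff₀ hY0, hY]
        nlinarith) hρ1 hV (fun t ht => ⟨⟨(hT t ht).2.1, by
          have h2 := (hT t ht).2.2
          nlinarith⟩, (hT t ht).1⟩) hs
    refine h1.trans ?_
    have h2 : Y ^ (1/2:ℝ) ≤ X ^ (1/2:ℝ) := Real.rpow_le_rpow hY0.le (by rw [hY]; linarith) (by norm_num)
    have hX12 : 1 ≤ X ^ (1/2:ℝ) := Real.one_le_rpow hX1 (by norm_num)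
    have h3 : (H + 3) / V^6 + (H + 3) / (V^10 * ρ) + Y ^ (1/2:ℝ) / V^3 + 1 / (V^2 * ρ) ≤ 4 * (G / ρ) := by
      have e1 : G / ρ = H / V^6 + H / (V^10 * ρ) + X ^ (1/2:ℝ) / V^3 + 1 / (V^2 * ρ) := by
        rw [hG]; field_simp
      rw [e1]
      have i1 : 3 / V^6 ≤ 3 * (X ^ (1/2:ℝ) / V^3) := by
        have : 1 / V ^ 6 ≤ 1 / V ^ 3 := by
          apply one_div_le_one_div_of_le (by positivity)
          exact pow_le_pow_right₀ hV (by norm_num)
        have h5 : 1 / V ^ 3 ≤ X ^ (1/2:ℝ) / V^3 := by gcongr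
        have e : 3 / V^6 = 3 * (1 / V^6) := by ring
        rw [e]; linarith
      have i2 : 3 / (V^10 * ρ) ≤ 3 * (1 / (V^2 * ρ)) := by
        have : 1 / (V ^ 10 * ρ) ≤ 1 / (V ^ 2 * ρ) := by
          apply one_div_le_one_div_of_le (by positivity)
          exact mul_le_mul_of_nonneg_right (pow_le_pow_right₀ hV (by norm_num)) hρ0.le
        have e : 3 / (V^10 * ρ) = 3 * (1 / (V^10 * ρ)) := by ring
        rw [e]; linarith
      have i3 : Y ^ (1/2:ℝ) / V^3 ≤ X ^ (1/2:ℝ) / V^3 := by gcongr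
      have e2 : (H + 3) / V^6 = H / V^6 + 3 / V^6 := by ring
      have e3 : (H + 3) / (V^10 * ρ) = H / (V^10 * ρ) + 3 / (V^10 * ρ) := by ring
      have j1 : 0 ≤ H / V^6 := by positivity
      have j2 : 0 ≤ H / (V^10 * ρ) := by positivity
      rw [e2, e3]
      linarith
    calc C * Y ^ ε * ((H + 3) / V^6 + (H + 3) / (V^10 * ρ) + Y ^ (1/2:ℝ) / V^3 + 1 / (V^2 * ρ))
        ≤ C * X ^ ε * (4 * (G / ρ)) := by
          apply mul_le_mul _ h3 (by positivity) (by positivity)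
          exact mul_le_mul_of_nonneg_left hYε hC.le
      _ = _ := by ring
  obtain ⟨I, hI1, hI2⟩ := cells A hρ0 n hB
  have hsub : Near V ρ ∩ Set.Icc X (X + H) ⊆ ⋃ i ∈ I, Set.Icc (Y + (i - 1) * ρ) (Y + (i + 2) * ρ) := by
    rintro x ⟨⟨s, hs1, hs2⟩, hx1, hx2⟩
    rw [abs_le] at hs1
    have h1 : Y ≤ s := by rw [hY]; linarith
    have h2 : s < Y + (n + 1) * ρ := by rw [hY]; linarith
    obtain ⟨i, hi, h3, h4⟩ := hI2 s hs2 h1 h2
    simp only [Set.mem_iUnion]
    exact ⟨i, hi, ⟨by linarith, by linarith⟩⟩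
  calc volume (Near V ρ ∩ Set.Icc X (X + H))
      ≤ volume (⋃ i ∈ I, Set.Icc (Y + ((i : ℝ) - 1) * ρ) (Y + (i + 2) * ρ)) := measure_mono hsub
    _ ≤ ∑ i ∈ I, volume (Set.Icc (Y + ((i : ℝ) - 1) * ρ) (Y + (i + 2) * ρ)) := measure_biUnion_finset_le _ _
    _ = ∑ i ∈ I, ENNReal.ofReal (3 * ρ) := by
        apply sum_congr rfl
        intro i _
        rw [Real.volume_Icc]
        congr 1
        ring
    _ = I.card * ENNReal.ofReal (3 * ρ) := by rw [sum_const, nsmul_eq_mul]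
    _ = ENNReal.ofReal (I.card * (3 * ρ)) := by
        rw [ENNReal.ofReal_mul (Nat.cast_nonneg _), ENNReal.ofReal_natCast]
    _ ≤ _ := by
        apply ENNReal.ofReal_le_ofReal
        calc (I.card : ℝ) * (3 * ρ) ≤ (2 * (4 * C * X ^ ε * (G / ρ))) * (3 * ρ) := by gcongr
          _ = _ := by field_simp; ring

end Pool.Agent.H25.GC
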