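import Mathlib
import Pool.Agent.H25.GC.BC

/-! Almost all translations, and the number of exceptions. -/

set_option autoImplicit false

open Finset Filter Topology MeasureTheory

namespace Pool.Agent.H25.GC

/-- the bad radii form a set of finite measure -/
theorem fin_meas {ε : ℝ} (hε : 0 < ε) : volume {x : ℝ | 1 ≤ x ∧ ¬ Good (3 / 5 + ε) (2 / 5) x} ≠ ⊤ := by
  set η : ℝ := min ε (1 / 40) with hη
  have hη0 : 0 < η := lt_min hε (by norm_num)
  have hη1 : η ≤ 1 / 40 := min_le_right _ _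
  have hηε : η ≤ ε := min_le_left _ _
  obtain ⟨C, hC, h⟩ := bad_meas (σ := 1 / 10 + η) (β := 2 / 5) (ε := η) (by linarith) (by linarith) (by norm_num)
    (by norm_num) hη0
  have hcov : {x : ℝ | 1 ≤ x ∧ ¬ Good (3 / 5 + ε) (2 / 5) x} ⊆
      Set.Icc 1 2 ∪ ⋃ k : ℕ, ({x | ¬ Good (1 / 2 + (1 / 10 + η)) (2 / 5) x} ∩
        Set.Icc ((3 / 2 : ℝ) ^ k) (3 / 2 * (3 / 2 : ℝ) ^ k)) := by
    rintro x ⟨hx1, hx2⟩
    rcases le_or_gt x 2 with h2 | h2
    · exact Or.inl ⟨hx1, h2⟩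
    · right
      obtain ⟨n, hn1, hn2⟩ := exists_nat_pow_near hx1 (by norm_num : (1 : ℝ) < 3 / 2)
      rw [Set.mem_iUnion]
      refine ⟨n, ?_, hn1, ?_⟩
      · intro hg
        exact hx2 (hg.mono h2.le (by norm_num) (by linarith) le_rfl)
      · rw [pow_succ] at hn2
        linarith
  refine ne_top_of_le_ne_top ?_ (measure_mono hcov)
  refine ne_top_of_le_ne_top ?_ (measure_union_le _ _)
  refine ENNReal.add_ne_top.mpr ⟨by simp, ?_⟩
  refine ne_top_of_le_ne_top ?_ (measure_iUnion_le _)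
  have hm : 1 + 6 * η ≤ min (10 * (1 / 10 + η)) (2 / 5 + 6 * (1 / 10 + η)) := le_min (by linarith) (by linarith)
  have hk : ∀ k : ℕ, volume ({x | ¬ Good (1 / 2 + (1 / 10 + η)) (2 / 5) x} ∩
        Set.Icc ((3 / 2 : ℝ) ^ k) (3 / 2 * (3 / 2 : ℝ) ^ k)) ≤ ENNReal.ofReal (C * ((3 / 2 : ℝ) ^ (-(5 * η))) ^ k) := by
    intro k
    have h1 : (1 : ℝ) ≤ (3 / 2 : ℝ) ^ k := one_le_pow₀ (by norm_num)
    refine (h _ h1).trans (ENNReal.ofReal_le_ofReal ?_)
    apply mul_le_mul_of_nonneg_left _ hC.le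
    calc ((3 / 2 : ℝ) ^ k) ^ (1 + η - min (10 * (1 / 10 + η)) (2 / 5 + 6 * (1 / 10 + η)))
        ≤ ((3 / 2 : ℝ) ^ k) ^ (-(5 * η)) := Real.rpow_le_rpow_of_exponent_le h1 (by linarith)
      _ = _ := by
        rw [← Real.rpow_natCast, ← Real.rpow_mul (by norm_num), ← Real.rpow_natCast, ← Real.rpow_mul (by norm_num),
          mul_comm]
  refine ne_top_of_le_ne_top ?_ (ENNReal.tsum_le_tsum hk)
  have hs : Summable (fun k : ℕ => C * ((3 / 2 : ℝ) ^ (-(5 * η))) ^ k) := by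
    apply Summable.mul_left
    apply summable_geometric_of_lt_one (by positivity)
    exact Real.rpow_lt_one_of_one_lt_of_neg (by norm_num) (by linarith)
  exact hs.tsum_ofReal_ne_top

/-- almost all translations -/
theorem translations : ∀ᵐ β : ℝ, ∀ ε : ℝ, 0 < ε → ∀ᶠ n : ℕ in atTop, Good (3 / 5 + ε) (2 / 5) (n + β) := by
  -- one unit interval, one epsilon
  have key : ∀ (m : ℤ) (j : ℕ), ∀ᵐ β ∂(volume.restrict (Set.Ico (m : ℝ) (m + 1))),
      ∀ᶠ n : ℕ in atTop, Good (3 / 5 + 1 / ((j : ℝ) + 1)) (2 / 5) (n + β) := by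
    intro m j
    set B : Set ℝ := {x : ℝ | 1 ≤ x ∧ ¬ Good (3 / 5 + 1 / ((j : ℝ) + 1)) (2 / 5) x} with hB
    have hBf : volume B ≠ ⊤ := fin_meas (by positivity)
    set B' := toMeasurable volume B with hB'
    have hB'm : MeasurableSet B' := measurableSet_toMeasurable _ _
    have hB'f : volume B' ≠ ⊤ := by rw [hB', measure_toMeasurable]; exact hBf
    set s : ℕ → Set ℝ := fun n => {β | (n : ℝ) + β ∈ B'} with hs
    have h2 : ∑' n, (volume.restrict (Set.Ico (m : ℝ) (m + 1))) (s n) ≠ ⊤ := by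
      have h3 : ∀ n, (volume.restrict (Set.Ico (m : ℝ) (m + 1))) (s n) =
          volume (B' ∩ Set.Ico ((n : ℝ) + m) ((n : ℝ) + m + 1)) := by
        intro n
        rw [Measure.restrict_apply' measurableSet_Ico]
        have h4 : s n ∩ Set.Ico (m : ℝ) (m + 1) = (fun x => (n : ℝ) + x) ⁻¹'
            (B' ∩ Set.Ico ((n : ℝ) + m) ((n : ℝ) + m + 1)) := by
          ext x
          simp only [hs, Set.mem_inter_iff, Set.mem_ofPred_eq, Set.mem_Ico, Set.mem_preimage]
          constructor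
          · rintro ⟨a, b, c⟩; exact ⟨a, by linarith, by linarith⟩
          · rintro ⟨a, b, c⟩; exact ⟨a, by linarith, by linarith⟩
        rw [h4, measure_preimage_add]
      simp_rw [h3]
      rw [← measure_iUnion]
      · exact ne_top_of_le_ne_top hB'f (measure_mono (Set.iUnion_subset (fun n => Set.inter_subset_left)))
      · intro i k hik
        refine Set.disjoint_left.mpr ?_
        rintro x ⟨-, a1, a2⟩ ⟨-, b1, b2⟩
        rcases lt_or_gt_of_ne hik with h | h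
        · have : (i : ℝ) + 1 ≤ k := by exact_mod_cast h
          linarith
        · have : (k : ℝ) + 1 ≤ i := by exact_mod_cast h
          linarith
      · intro n
        exact hB'm.inter measurableSet_Ico
    have h4 := ae_eventually_notMem h2
    filter_upwards [h4] with β hβ
    have h5 : Tendsto (fun n : ℕ => (n : ℝ) + β) atTop atTop :=
      tendsto_atTop_add_const_right _ _ tendsto_natCast_atTop_atTop
    filter_upwards [hβ, h5.eventually_ge_atTop 1] with n hn1 hn2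
    by_contra hcon
    exact hn1 (subset_toMeasurable volume B ⟨hn2, hcon⟩)
  have hcov : (Set.univ : Set ℝ) ⊆ ⋃ m : ℤ, Set.Ico (m : ℝ) (m + 1) := by
    intro x _
    rw [Set.mem_iUnion]
    exact ⟨⌊x⌋, Int.floor_le x, Int.lt_floor_add_one x⟩
  have key2 : ∀ᵐ β : ℝ, ∀ j : ℕ, ∀ᶠ n : ℕ in atTop, Good (3 / 5 + 1 / ((j : ℝ) + 1)) (2 / 5) (n + β) := by
    rw [ae_all_iff]
    intro j
    rw [← Measure.restrict_univ (μ := (volume : Measure ℝ))]
    exact ae_mono (Measure.restrict_mono_set volume hcov)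
      ((ae_restrict_iUnion_iff _ _).mpr (fun m => key m j))
  filter_upwards [key2] with β hβ
  intro ε hε
  obtain ⟨j, hj⟩ := exists_nat_one_div_lt hε
  have h5 : Tendsto (fun n : ℕ => (n : ℝ) + β) atTop atTop :=
    tendsto_atTop_add_const_right _ _ tendsto_natCast_atTop_atTop
  filter_upwards [hβ j, h5.eventually_ge_atTop 2] with n hn1 hn2
  exact hn1.mono hn2 (by norm_num) (by linarith) le_rfl

/-- the number of exceptions for almost all dilations -/
theorem exceptions : ∀ᵐ α ∂(volume.restrict (Set.Ioi (0 : ℝ))), ∀ σ ε : ℝ, 0 < σ → σ ≤ 1 / 10 → 0 < ε →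
    ∃ C : ℝ, ∀ N : ℕ, (({n : ℕ | 1 ≤ n ∧ n ≤ N ∧ ¬ Good (1 / 2 + σ) (4 * σ) (α * n)}.ncard : ℕ) : ℝ) ≤
      C * (N : ℝ) ^ (1 - 10 * σ + ε) := by
  -- one interval, one sigma, one epsilon
  have key : ∀ (i : ℤ) (σ : ℚ) (k : ℕ), 0 < (σ : ℝ) → (σ : ℝ) ≤ 1 / 10 →
      ∀ᵐ α ∂(volume.restrict (Set.Icc ((3 / 2 : ℝ) ^ i) (3 / 2 * (3 / 2 : ℝ) ^ i))),
      ∃ C : ℝ, ∀ N : ℕ, (({n : ℕ | 1 ≤ n ∧ n ≤ N ∧ ¬ Good (1 / 2 + σ) (4 * σ) (α * n)}.ncard : ℕ) : ℝ) ≤
        C * (N : ℝ) ^ (1 - 10 * (σ : ℝ) + 1 / ((k : ℝ) + 1)) := by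
    intro i σ k hσ0 hσ1
    set a : ℝ := (3 / 2 : ℝ) ^ i with ha
    have ha0 : 0 < a := by positivity
    set η : ℝ := 1 / (2 * ((k : ℝ) + 1)) with hη
    have hη0 : 0 < η := by positivity
    have hη2 : 1 / ((k : ℝ) + 1) = 2 * η := by rw [hη]; field_simp
    rw [hη2]
    obtain ⟨C, hC, h1⟩ := dil_meas (σ := (σ : ℝ)) (β := 4 * (σ : ℝ)) (ε := η) (a := a) hσ0
      (by linarith) (by positivity) (by linarith) hη0 ha0
    set μ := volume.restrict (Set.Icc a (3 / 2 * a)) with hμ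
    set E : ℕ → Set ℝ := fun n => {α | 1 / a ≤ n ∧ 1 ≤ n ∧ ¬ Good (1 / 2 + σ) (4 * σ) (α * n)} with hE
    set F : ℕ → Set ℝ := fun n => toMeasurable μ (E n) with hF
    have hFm : ∀ n, μ (F n) ≤ ENNReal.ofReal (C * (n : ℝ) ^ (η - 10 * (σ : ℝ))) := by
      intro n
      rw [hF, measure_toMeasurable, hμ, Measure.restrict_apply' measurableSet_Icc]
      by_cases h4 : 1 / a ≤ n ∧ 1 ≤ n
      · have h5 : E n ∩ Set.Icc a (3 / 2 * a) ⊆
            {α | ¬ Good (1 / 2 + σ) (4 * σ) (α * n)} ∩ Set.Icc a (3 / 2 * a) :=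
          Set.inter_subset_inter_left _ (fun α hα => hα.2.2)
        refine (measure_mono h5).trans ((h1 n h4.1).trans ?_)
        apply ENNReal.ofReal_le_ofReal
        have : min (10 * (σ : ℝ)) (4 * (σ : ℝ) + 6 * (σ : ℝ)) = 10 * (σ : ℝ) := by
          rw [show 4 * (σ : ℝ) + 6 * (σ : ℝ) = 10 * (σ : ℝ) by ring, min_self]
        rw [this]
      · have : E n = ∅ := by
          ext α
          simp only [hE, Set.mem_ofPred_eq, Set.mem_empty_iff_false, iff_false]
          exact fun h => h4 ⟨h.1, h.2.1⟩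
        rw [this, Set.empty_inter, measure_empty]
        exact bot_le
    set s : ℝ := 1 - 10 * (σ : ℝ) + 2 * η with hs
    have hs0 : 0 < s := by linarith
    set f : ℝ → ENNReal := fun α => ∑' n : ℕ, (F n).indicator (fun _ => ENNReal.ofReal ((n : ℝ) ^ (-s))) α with hf
    have hfint : ∫⁻ α, f α ∂μ ≠ ⊤ := by
      rw [hf, lintegral_tsum (fun n => (measurable_const.indicator (measurableSet_toMeasurable _ _)).aemeasurable)]
      have h6 : ∀ n : ℕ, ∫⁻ α, (F n).indicator (fun _ => ENNReal.ofReal ((n : ℝ) ^ (-s))) α ∂μ ≤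
          ENNReal.ofReal (C * (n : ℝ) ^ (-(1 + η))) := by
        intro n
        rw [lintegral_indicator_const (measurableSet_toMeasurable _ _)]
        refine (mul_le_mul' le_rfl (hFm n)).trans ?_
        rw [← ENNReal.ofReal_mul (by positivity)]
        apply ENNReal.ofReal_le_ofReal
        rcases Nat.eq_zero_or_pos n with h0 | hpos
        · subst h0
          simp only [Nat.cast_zero]
          rw [Real.zero_rpow (by linarith), zero_mul]
          positivity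
        · have hn : (0 : ℝ) < n := by exact_mod_cast hpos
          rw [mul_left_comm, ← Real.rpow_add hn]
          apply le_of_eq
          congr 2
          rw [hs]; ring
      refine ne_top_of_le_ne_top ?_ (ENNReal.tsum_le_tsum h6)
      have h7 : Summable (fun n : ℕ => C * (n : ℝ) ^ (-(1 + η))) := by
        apply Summable.mul_left
        exact Real.summable_nat_rpow.mpr (by linarith)
      exact h7.tsum_ofReal_ne_top
    have hfm : AEMeasurable f μ := by
      apply AEMeasurable.tsum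
      intro n
      exact (measurable_const.indicator (measurableSet_toMeasurable _ _)).aemeasurable
    have h8 := ae_lt_top' hfm hfint
    filter_upwards [h8] with α hα
    set L : ℕ := ⌈1 / a⌉₊ with hL
    refine ⟨(f α).toReal + L, ?_⟩
    intro N
    rcases Nat.eq_zero_or_pos N with h0 | hpos
    · subst h0
      have : {n : ℕ | 1 ≤ n ∧ n ≤ 0 ∧ ¬ Good (1 / 2 + σ) (4 * σ) (α * n)} = ∅ := by
        ext n
        simp only [Set.mem_ofPred_eq, Set.mem_empty_iff_false, iff_false]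
        rintro ⟨h1, h2, -⟩
        omega
      rw [this]
      simp only [Set.ncard_empty, Nat.cast_zero]
      positivity
    have hN : (0 : ℝ) < N := by exact_mod_cast hpos
    have hN1 : (1 : ℝ) ≤ N := by exact_mod_cast hpos
    classical
    set G : Finset ℕ := (Finset.Icc 1 N).filter (fun n : ℕ => α ∈ E n) with hG
    have h9 : {n : ℕ | 1 ≤ n ∧ n ≤ N ∧ ¬ Good (1 / 2 + σ) (4 * σ) (α * n)} ⊆
        ((G ∪ Finset.range L : Finset ℕ) : Set ℕ) := by
      rintro n ⟨h1, h2, h3⟩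
      simp only [coe_union, coe_range, Set.mem_union, mem_coe, Set.mem_Iio]
      by_cases h4 : n < L
      · exact Or.inr h4
      · left
        rw [hG, Finset.mem_filter, Finset.mem_Icc]
        refine ⟨⟨h1, h2⟩, ?_, h1, h3⟩
        push Not at h4
        exact (Nat.le_ceil _).trans (by exact_mod_cast h4)
    have h10 : (({n : ℕ | 1 ≤ n ∧ n ≤ N ∧ ¬ Good (1 / 2 + σ) (4 * σ) (α * n)}.ncard : ℕ) : ℝ) ≤ G.card + L := by
      have h11 := Set.ncard_le_ncard h9 (Finset.finite_toSet _)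
      rw [Set.ncard_coe_finset] at h11
      have h12 := Finset.card_union_le G (Finset.range L)
      rw [Finset.card_range] at h12
      exact_mod_cast h11.trans h12
    have h13 : (G.card : ℝ) * (N : ℝ) ^ (-s) ≤ (f α).toReal := by
      have h14 : ENNReal.ofReal ((G.card : ℝ) * (N : ℝ) ^ (-s)) ≤ f α := by
        calc ENNReal.ofReal ((G.card : ℝ) * (N : ℝ) ^ (-s)) = ∑ n ∈ G, ENNReal.ofReal ((N : ℝ) ^ (-s)) := by
              rw [Finset.sum_const, nsmul_eq_mul, ENNReal.ofReal_mul (by positivity), ENNReal.ofReal_natCast]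
          _ ≤ ∑ n ∈ G, (F n).indicator (fun _ => ENNReal.ofReal ((n : ℝ) ^ (-s))) α := by
              apply Finset.sum_le_sum
              intro n hn
              rw [hG, Finset.mem_filter, Finset.mem_Icc] at hn
              rw [Set.indicator_of_mem (subset_toMeasurable _ _ hn.2)]
              apply ENNReal.ofReal_le_ofReal
              have hn1 : (0 : ℝ) < n := by exact_mod_cast hn.1.1
              exact Real.rpow_le_rpow_of_nonpos hn1 (by exact_mod_cast hn.1.2) (by linarith)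
          _ ≤ f α := ENNReal.sum_le_tsum G
      have h15 := ENNReal.toReal_mono hα.ne h14
      rwa [ENNReal.toReal_ofReal (by positivity)] at h15
    have h16 : (G.card : ℝ) ≤ (f α).toReal * (N : ℝ) ^ s := by
      calc (G.card : ℝ) = ((G.card : ℝ) * (N : ℝ) ^ (-s)) * (N : ℝ) ^ s := by
            rw [mul_assoc, ← Real.rpow_add hN]; simp
        _ ≤ _ := mul_le_mul_of_nonneg_right h13 (by positivity)
    have h17 : (L : ℝ) ≤ L * (N : ℝ) ^ s := by
      have := Real.one_le_rpow hN1 hs0.le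
      have hL0 : (0 : ℝ) ≤ L := Nat.cast_nonneg _
      nlinarith
    calc _ ≤ (G.card : ℝ) + L := h10
      _ ≤ (f α).toReal * (N : ℝ) ^ s + L * (N : ℝ) ^ s := add_le_add h16 h17
      _ = _ := by ring
  have key2 : ∀ᵐ α ∂(volume.restrict (Set.Ioi (0 : ℝ))), ∀ (σ : ℚ) (k : ℕ), 0 < (σ : ℝ) → (σ : ℝ) ≤ 1 / 10 →
      ∃ C : ℝ, ∀ N : ℕ, (({n : ℕ | 1 ≤ n ∧ n ≤ N ∧ ¬ Good (1 / 2 + σ) (4 * σ) (α * n)}.ncard : ℕ) : ℝ) ≤
        C * (N : ℝ) ^ (1 - 10 * (σ : ℝ) + 1 / ((k : ℝ) + 1)) := by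
    rw [ae_all_iff]
    intro σ
    rw [ae_all_iff]
    intro k
    by_cases h : 0 < (σ : ℝ) ∧ (σ : ℝ) ≤ 1 / 10
    · have h1 : ∀ᵐ α ∂(volume.restrict (Set.Ioi (0 : ℝ))),
          ∃ C : ℝ, ∀ N : ℕ, (({n : ℕ | 1 ≤ n ∧ n ≤ N ∧ ¬ Good (1 / 2 + σ) (4 * σ) (α * n)}.ncard : ℕ) : ℝ) ≤
            C * (N : ℝ) ^ (1 - 10 * (σ : ℝ) + 1 / ((k : ℝ) + 1)) :=
        ae_mono (Measure.restrict_mono_set volume cover_pos)
          ((ae_restrict_iUnion_iff _ _).mpr (fun i => key i σ k h.1 h.2))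
      filter_upwards [h1] with α hα _ _
      exact hα
    · refine ae_of_all _ ?_
      intro α h1 h2
      exact absurd ⟨h1, h2⟩ h
  have hpos : ∀ᵐ α ∂(volume.restrict (Set.Ioi (0 : ℝ))), 0 < α := ae_restrict_mem measurableSet_Ioi
  filter_upwards [key2, hpos] with α hα hα0
  intro σ ε hσ hσ1 hε
  obtain ⟨k, hk⟩ := exists_nat_one_div_lt (half_pos hε)
  obtain ⟨q, hq1, hq2⟩ := exists_rat_btwn (show max (σ / 2) (σ - ε / 20) < σ by
    apply max_lt <;> linarith)
  have hq0 : 0 < (q : ℝ) := by linarith [(le_max_left (σ / 2) (σ - ε / 20)).trans_lt hq1]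
  have hq3 : σ - ε / 20 < q := (le_max_right _ _).trans_lt hq1
  obtain ⟨C, hC⟩ := hα q k hq0 (by linarith)
  set L : ℕ := ⌈2 / α⌉₊ with hL
  refine ⟨max C 0 + L, ?_⟩
  intro N
  rcases Nat.eq_zero_or_pos N with h0 | hpos
  · subst h0
    have : {n : ℕ | 1 ≤ n ∧ n ≤ 0 ∧ ¬ Good (1 / 2 + σ) (4 * σ) (α * n)} = ∅ := by
      ext n
      simp only [Set.mem_ofPred_eq, Set.mem_empty_iff_false, iff_false]
      rintro ⟨h1, h2, -⟩
      omega
    rw [this]
    simp only [Set.ncard_empty, Nat.cast_zero]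
    positivity
  have hN1 : (1 : ℝ) ≤ N := by exact_mod_cast hpos
  have h9 : {n : ℕ | 1 ≤ n ∧ n ≤ N ∧ ¬ Good (1 / 2 + σ) (4 * σ) (α * n)} ⊆
      {n : ℕ | 1 ≤ n ∧ n ≤ N ∧ ¬ Good (1 / 2 + q) (4 * q) (α * n)} ∪ ((Finset.range L : Finset ℕ) : Set ℕ) := by
    rintro n ⟨h1, h2, h3⟩
    simp only [coe_range, Set.mem_union, Set.mem_Iio, Set.mem_ofPred_eq]
    by_cases h4 : n < L
    · exact Or.inr h4
    · left
      refine ⟨h1, h2, fun hg => h3 ?_⟩
      push Not at h4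
      have h5 : 2 ≤ α * n := by
        have h6 : 2 / α ≤ n := (Nat.le_ceil _).trans (by exact_mod_cast h4)
        rw [div_le_iff₀ hα0] at h6
        linarith
      exact hg.mono h5 (by positivity) (by linarith) (by linarith)
  have hfin : ({n : ℕ | 1 ≤ n ∧ n ≤ N ∧ ¬ Good (1 / 2 + q) (4 * q) (α * n)} ∪
      ((Finset.range L : Finset ℕ) : Set ℕ)).Finite := by
    apply Set.Finite.union _ (Finset.finite_toSet _)
    apply (Set.finite_Icc 1 N).subset
    rintro n ⟨h1, h2, -⟩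
    exact ⟨h1, h2⟩
  have h10 := Set.ncard_le_ncard h9 hfin
  have h11 := Set.ncard_union_le {n : ℕ | 1 ≤ n ∧ n ≤ N ∧ ¬ Good (1 / 2 + q) (4 * q) (α * n)}
    ((Finset.range L : Finset ℕ) : Set ℕ)
  rw [Set.ncard_coe_finset, Finset.card_range] at h11
  have h12 : (({n : ℕ | 1 ≤ n ∧ n ≤ N ∧ ¬ Good (1 / 2 + σ) (4 * σ) (α * n)}.ncard : ℕ) : ℝ) ≤
      ({n : ℕ | 1 ≤ n ∧ n ≤ N ∧ ¬ Good (1 / 2 + q) (4 * q) (α * n)}.ncard : ℕ) + (L : ℝ) := by
    exact_mod_cast h10.trans h11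
  have hexp : (N : ℝ) ^ (1 - 10 * (q : ℝ) + 1 / ((k : ℝ) + 1)) ≤ (N : ℝ) ^ (1 - 10 * σ + ε) :=
    Real.rpow_le_rpow_of_exponent_le hN1 (by linarith)
  have hone : (1 : ℝ) ≤ (N : ℝ) ^ (1 - 10 * σ + ε) := Real.one_le_rpow hN1 (by linarith)
  calc _ ≤ _ := h12
    _ ≤ C * (N : ℝ) ^ (1 - 10 * (q : ℝ) + 1 / ((k : ℝ) + 1)) + L * (N : ℝ) ^ (1 - 10 * σ + ε) := by
        apply add_le_add (hC N)
        have hL0 : (0 : ℝ) ≤ L := Nat.cast_nonneg _
        nlinarith
    _ ≤ max C 0 * (N : ℝ) ^ (1 - 10 * σ + ε) + L * (N : ℝ) ^ (1 - 10 * σ + ε) := by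
        apply add_le_add _ le_rfl
        exact (mul_le_mul_of_nonneg_right (le_max_left _ _) (by positivity)).trans
          (mul_le_mul_of_nonneg_left hexp (le_max_right _ _))
    _ = _ := by ring

end Pool.Agent.H25.GC
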