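import Mathlib
import Pool.Agent.H25.GC.BC2

/-! Coverings of the set of bad dilations. -/

set_option autoImplicit false

open Finset Filter Topology MeasureTheory
open Pool.Agent.H387R2.Vor
open Pool.Agent.H383.AP Pool.Agent.H383.Gauss Pool.Agent.H383.Gen Pool.Agent.H383.Div Pool.Agent.H383.Circ
open Pool.Agent.H452R2 Pool.Agent.H452R2.Win
open Pool.Agent.H383
open Pool.Agent.NH14.SM

namespace Pool.Agent.H25.GC

/-- covering the radii of an interval near a radius with a large error term -/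
theorem near_cover {ε : ℝ} (hε : 0 < ε) : ∃ C : ℝ, 0 < C ∧
    ∀ (X H ρ V : ℝ), 8 ≤ X → 0 ≤ H → H ≤ X / 2 → 2 / X ≤ ρ → ρ ≤ 1 → 1 ≤ V →
      ∃ (I : Finset ℕ) (c : ℕ → ℝ), (I.card : ℝ) ≤
        C * X ^ ε * (H / V^6 + H / (V^10 * ρ) + X ^ (1/2:ℝ) / V^3 + 1 / (V^2 * ρ)) ∧
        Near V ρ ∩ Set.Icc X (X + H) ⊆ ⋃ i ∈ I, Set.Icc (c i) (c i + 3 * ρ) := by
  obtain ⟨C, hC, hsep⟩ := P_sep hε
  refine ⟨8 * C, by positivity, ?_⟩
  intro X H ρ V hX hH hHX hρX hρ1 hV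
  have hX0 : 0 < X := by linarith
  have hV0 : 0 < V := by linarith
  have hρ0 : 0 < ρ := lt_of_lt_of_le (by positivity) hρX
  set Y : ℝ := X - 1 with hY
  have hY0 : 0 < Y := by rw [hY]; linarith
  set A : Set ℝ := {s | V * √s ≤ |P s|} with hA
  set n : ℕ := ⌊(H + 2) / ρ⌋₊ with hn
  have hn1 := Nat.floor_le (show 0 ≤ (H + 2) / ρ by positivity)
  have hn2 := Nat.lt_floor_add_one ((H + 2) / ρ)
  rw [← hn] at hn1 hn2
  rw [le_div_iff₀ hρ0] at hn1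
  rw [div_lt_iff₀ hρ0] at hn2
  set G : ℝ := ρ * H / V^6 + H / V^10 + ρ * X ^ (1/2:ℝ) / V^3 + 1 / V^2 with hG
  have hG0 : 0 ≤ G := by positivity
  have hX1 : 1 ≤ X := by linarith
  have hYε : Y ^ ε ≤ X ^ ε := Real.rpow_le_rpow hY0.le (by rw [hY]; linarith) hε.le
  have hB : ∀ T : Finset ℝ, (∀ t ∈ T, t ∈ A ∧ Y ≤ t ∧ t ≤ Y + (n + 1) * ρ) → Sep ρ T →
      (T.card : ℝ) ≤ 4 * C * X ^ ε * (G / ρ) := by
    intro T hT hs
    have h1 := hsep Y (H + 3) ρ V T (by rw [hY]; linarith) (by linarith) (by rw [hY]; linarith)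
      (by
        rw [div_le_iff₀ hX0] at hρX
        rw [div_le_iff₀ hY0, hY]
        nlinarith) hρ1 hV (fun t ht => ⟨⟨(hT t ht).2.1, by
          have h2 := (hT t ht).2.2
          nlinarith⟩, (hT t ht).1⟩) hs
    refine h1.trans ?_
    have h2 : Y ^ (1/2:ℝ) ≤ X ^ (1/2:ℝ) := Real.rpow_le_rpow hY0.le (by rw [hY]; linarith) (by norm_num)
    have hX12 : 1 ≤ X ^ (1/2:ℝ) := Real.one_le_rpow hX1 (by norm_num)
    have h3 : (H + 3) / V^6 + (H + 3) / (V^10 * ρ) + Y ^ (1/2:ℝ) / V^3 + 1 / (V^2 * ρ) ≤ 4 * (G / ρ) := by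
      have e1 : G / ρ = H / V^6 + H / (V^10 * ρ) + X ^ (1/2:ℝ) / V^3 + 1 / (V^2 * ρ) := by
        rw [hG]; field_simp
      rw [e1]
      have i1 : 3 / V^6 ≤ 3 * (X ^ (1/2:ℝ) / V^3) := by
        have : 1 / V ^ 6 ≤ 1 / V ^ 3 := by
          apply one_div_le_one_div_of_le (by positivity)
          exact pow_le_pow_right₀ hV (by norm_num)
        have h5 : 1 / V ^ 3 ≤ X ^ (1/2:ℝ) / V^3 := by gcongr
        have e : 3 / V^6 = 3 * (1 / V^6) := by ring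
        rw [e]; linarith
      have i2 : 3 / (V^10 * ρ) ≤ 3 * (1 / (V^2 * ρ)) := by
        have : 1 / (V ^ 10 * ρ) ≤ 1 / (V ^ 2 * ρ) := by
          apply one_div_le_one_div_of_le (by positivity)
          exact mul_le_mul_of_nonneg_right (pow_le_pow_right₀ hV (by norm_num)) hρ0.le
        have e : 3 / (V^10 * ρ) = 3 * (1 / (V^10 * ρ)) := by ring
        rw [e]; linarith
      have i3 : Y ^ (1/2:ℝ) / V^3 ≤ X ^ (1/2:ℝ) / V^3 := by gcongr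
      have e2 : (H + 3) / V^6 = H / V^6 + 3 / V^6 := by ring
      have e3 : (H + 3) / (V^10 * ρ) = H / (V^10 * ρ) + 3 / (V^10 * ρ) := by ring
      have j1 : 0 ≤ H / V^6 := by positivity
      have j2 : 0 ≤ H / (V^10 * ρ) := by positivity
      rw [e2, e3]
      linarith
    calc C * Y ^ ε * ((H + 3) / V^6 + (H + 3) / (V^10 * ρ) + Y ^ (1/2:ℝ) / V^3 + 1 / (V^2 * ρ))
        ≤ C * X ^ ε * (4 * (G / ρ)) := by
          apply mul_le_mul _ h3 (by positivity) (by positivity)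
          exact mul_le_mul_of_nonneg_left hYε hC.le
      _ = _ := by ring
  obtain ⟨I, hI1, hI2⟩ := cells A hρ0 n hB
  refine ⟨I, fun i => Y + ((i : ℝ) - 1) * ρ, ?_, ?_⟩
  · have e1 : G / ρ = H / V^6 + H / (V^10 * ρ) + X ^ (1/2:ℝ) / V^3 + 1 / (V^2 * ρ) := by
      rw [hG]; field_simp
    rw [← e1]
    calc (I.card : ℝ) ≤ 2 * (4 * C * X ^ ε * (G / ρ)) := hI1
      _ = _ := by ring
  · rintro x ⟨⟨s, hs1, hs2⟩, hx1, hx2⟩
    rw [abs_le] at hs1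
    have h1 : Y ≤ s := by rw [hY]; linarith
    have h2 : s < Y + (n + 1) * ρ := by rw [hY]; linarith
    obtain ⟨i, hi, h3, h4⟩ := hI2 s hs2 h1 h2
    simp only [Set.mem_iUnion]
    exact ⟨i, hi, ⟨by linarith, by linarith⟩⟩

/-- covering the bad radii of `[X, 3X/2]` -/
theorem bad_cover {σ β ε : ℝ} (hσ : 0 < σ) (hσ1 : σ ≤ 1 / 6) (hβ : 0 ≤ β) (hβ1 : β ≤ 4 * σ)
    (hβ2 : β ≤ 1 - 4 * σ) (hε : 0 < ε) :
    ∃ C : ℝ, 0 < C ∧ ∀ X : ℝ, 32 ≤ X → ∃ (I : Finset ℕ) (c : ℕ → ℝ),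
      (I.card : ℝ) ≤ C * X ^ (1 - 6 * σ + ε) ∧
      {x | ¬ Good (1 / 2 + σ) β x} ∩ Set.Icc X (3 / 2 * X) ⊆ ⋃ i ∈ I, Set.Icc (c i) (c i + 3 * X ^ (-β)) := by
  obtain ⟨C, hC, hm⟩ := near_cover hε
  refine ⟨28 * C, by positivity, ?_⟩
  intro X hge
  have hX0 : 0 < X := by linarith
  have hX : 1 ≤ X := by linarith
  have hβ3 : β ≤ 1 / 2 := by linarith
  set V : ℝ := (X / 2) ^ σ with hV
  have hX2 : 1 ≤ X / 2 := by linarith
  have hV1 : 1 ≤ V := Real.one_le_rpow hX2 hσ.le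
  set ρ : ℝ := X ^ (-β) with hρ
  have hρ0 : 0 < ρ := by positivity
  have hρ1 : ρ ≤ 1 := Real.rpow_le_one_of_one_le_of_nonpos hX (by linarith)
  have hρ2 : 2 / X ≤ ρ := by
    rw [div_le_iff₀ hX0]
    have e1 : ρ * X = X ^ (1 - β) := by
      rw [hρ, ← Real.rpow_add_one hX0.ne']; congr 1; ring
    rw [e1]
    calc (2 : ℝ) = (32 : ℝ) ^ (1 / 5 : ℝ) := by
          rw [show (32 : ℝ) = 2 ^ (5 : ℝ) by norm_num, ← Real.rpow_mul (by norm_num)]; norm_num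
      _ ≤ X ^ (1 / 5 : ℝ) := Real.rpow_le_rpow (by norm_num) hge (by norm_num)
      _ ≤ X ^ (1 - β) := Real.rpow_le_rpow_of_exponent_le hX (by linarith)
  have hsub : {x | ¬ Good (1 / 2 + σ) β x} ∩ Set.Icc X (3 / 2 * X) ⊆ Near V ρ ∩ Set.Icc X (X + X / 2) := by
    rintro x ⟨hx, hx1, hx2⟩
    refine ⟨?_, hx1, by linarith⟩
    simp only [Set.mem_ofPred_eq, Good, not_forall, not_le] at hx
    obtain ⟨s, hs1, hs2⟩ := hx
    have h1 : x ^ (-β) ≤ ρ := Real.rpow_le_rpow_of_nonpos hX0 hx1 (by linarith)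
    have h2 := hs1.trans h1
    refine ⟨s, h2, ?_⟩
    have h3 : X / 2 ≤ s := by
      have := (abs_le.mp (h2.trans hρ1)).1
      linarith
    have hs0 : 0 < s := by linarith
    have h4 : s ^ (1 / 2 + σ) = s ^ σ * √s := by
      rw [Real.rpow_add hs0, Real.sqrt_eq_rpow]; ring
    rw [h4] at hs2
    refine le_trans ?_ hs2.le
    apply mul_le_mul_of_nonneg_right _ (Real.sqrt_nonneg _)
    exact Real.rpow_le_rpow (by linarith) h3 hσ.le
  obtain ⟨I, c, hI1, hI2⟩ := hm X (X / 2) ρ V (by linarith) (by linarith) le_rfl hρ2 hρ1 hV1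
  refine ⟨I, c, hI1.trans ?_, hsub.trans hI2⟩
  have hVk : ∀ k : ℕ, k ≤ 10 → 1 / V ^ k ≤ 4 * X ^ (-(k * σ)) := by
    intro k hk
    have hk' : (k : ℝ) ≤ 10 := by exact_mod_cast hk
    have e1 : V ^ k = (X / 2) ^ (k * σ) := by
      rw [hV, ← Real.rpow_natCast, ← Real.rpow_mul (by linarith)]; congr 1; ring
    rw [e1, Real.div_rpow hX0.le (by norm_num), one_div_div, div_eq_mul_inv, ← Real.rpow_neg hX0.le]
    apply mul_le_mul_of_nonneg_right _ (by positivity)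
    calc (2 : ℝ) ^ (k * σ) ≤ 2 ^ (2 : ℝ) := by
          apply Real.rpow_le_rpow_of_exponent_le (by norm_num)
          nlinarith
      _ = 4 := by norm_num
  have hρi : 1 / ρ = X ^ β := by
    rw [hρ, Real.rpow_neg hX0.le, one_div, inv_inv]
  have t1 : (X / 2) / V ^ 6 ≤ 2 * X ^ (1 - 6 * σ) := by
    calc (X / 2) / V ^ 6 = (X / 2) * (1 / V ^ 6) := by ring
      _ ≤ (X / 2) * (4 * X ^ (-((6 : ℕ) * σ))) := mul_le_mul_of_nonneg_left (hVk 6 (by norm_num)) (by positivity)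
      _ = 2 * (X ^ (1 : ℝ) * X ^ (-((6 : ℕ) * σ))) := by rw [Real.rpow_one]; ring
      _ = 2 * X ^ (1 + -((6 : ℕ) * σ)) := by rw [← Real.rpow_add hX0]
      _ ≤ _ := by
          apply mul_le_mul_of_nonneg_left _ (by norm_num)
          apply Real.rpow_le_rpow_of_exponent_le hX
          push_cast; linarith
  have t2 : (X / 2) / (V ^ 10 * ρ) ≤ 2 * X ^ (1 - 6 * σ) := by
    calc (X / 2) / (V ^ 10 * ρ) = (X / 2) * (1 / ρ) * (1 / V ^ 10) := by field_simp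
      _ ≤ (X / 2) * (1 / ρ) * (4 * X ^ (-((10 : ℕ) * σ))) := mul_le_mul_of_nonneg_left (hVk 10 le_rfl) (by positivity)
      _ = 2 * (X ^ (1 : ℝ) * X ^ β * X ^ (-((10 : ℕ) * σ))) := by rw [Real.rpow_one, hρi]; ring
      _ = 2 * X ^ (1 + β + -((10 : ℕ) * σ)) := by rw [← Real.rpow_add hX0, ← Real.rpow_add hX0]
      _ ≤ _ := by
          apply mul_le_mul_of_nonneg_left _ (by norm_num)
          apply Real.rpow_le_rpow_of_exponent_le hX
          push_cast; linarith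
  have t3 : X ^ (1 / 2 : ℝ) / V ^ 3 ≤ 4 * X ^ (1 - 6 * σ) := by
    calc X ^ (1 / 2 : ℝ) / V ^ 3 = (X ^ (1 / 2 : ℝ)) * (1 / V ^ 3) := by ring
      _ ≤ (X ^ (1 / 2 : ℝ)) * (4 * X ^ (-((3 : ℕ) * σ))) :=
          mul_le_mul_of_nonneg_left (hVk 3 (by norm_num)) (by positivity)
      _ = 4 * (X ^ (1 / 2 : ℝ) * X ^ (-((3 : ℕ) * σ))) := by ring
      _ = 4 * X ^ (1 / 2 + -((3 : ℕ) * σ)) := by rw [← Real.rpow_add hX0]
      _ ≤ _ := by
          apply mul_le_mul_of_nonneg_left _ (by norm_num)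
          apply Real.rpow_le_rpow_of_exponent_le hX
          push_cast; linarith
  have t4 : 1 / (V ^ 2 * ρ) ≤ 4 * X ^ (1 - 6 * σ) := by
    calc 1 / (V ^ 2 * ρ) = (1 / ρ) * (1 / V ^ 2) := by field_simp
      _ ≤ (1 / ρ) * (4 * X ^ (-((2 : ℕ) * σ))) := mul_le_mul_of_nonneg_left (hVk 2 (by norm_num)) (by positivity)
      _ = 4 * (X ^ β * X ^ (-((2 : ℕ) * σ))) := by rw [hρi]; ring
      _ = 4 * X ^ (β + -((2 : ℕ) * σ)) := by rw [← Real.rpow_add hX0]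
      _ ≤ _ := by
          apply mul_le_mul_of_nonneg_left _ (by norm_num)
          apply Real.rpow_le_rpow_of_exponent_le hX
          push_cast; linarith
  have e5 : X ^ ε * X ^ (1 - 6 * σ) = X ^ (1 - 6 * σ + ε) := by
    rw [← Real.rpow_add hX0]; congr 1; ring
  calc C * X ^ ε * (X / 2 / V ^ 6 + X / 2 / (V ^ 10 * ρ) + X ^ (1 / 2 : ℝ) / V ^ 3 + 1 / (V ^ 2 * ρ))
      ≤ C * X ^ ε * (28 * X ^ (1 - 6 * σ)) := by
        apply mul_le_mul_of_nonneg_left _ (by positivity)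
        have : 0 ≤ X ^ (1 - 6 * σ) := by positivity
        linarith
    _ = 28 * C * X ^ (1 - 6 * σ + ε) := by rw [← e5]; ring

/-- covering the bad dilations -/
lemma dil_cover {σ β ε a : ℝ} (hσ : 0 < σ) (hσ1 : σ ≤ 1 / 6) (hβ : 0 ≤ β) (hβ1 : β ≤ 4 * σ)
    (hβ2 : β ≤ 1 - 4 * σ) (hε : 0 < ε) (ha : 0 < a) :
    ∃ C D : ℝ, 0 < C ∧ 0 < D ∧ ∀ u : ℝ, 32 / a ≤ u → ∃ (I : Finset ℕ) (c : ℕ → ℝ),
      (I.card : ℝ) ≤ C * u ^ (1 - 6 * σ + ε) ∧
      {α | ¬ Good (1 / 2 + σ) β (α * u)} ∩ Set.Icc a (3 / 2 * a) ⊆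
        ⋃ i ∈ I, Set.Icc (c i) (c i + D * u ^ (-(1 + β))) := by
  obtain ⟨C, hC, h⟩ := bad_cover hσ hσ1 hβ hβ1 hβ2 hε
  refine ⟨C * a ^ (1 - 6 * σ + ε), 3 * a ^ (-β), by positivity, by positivity, ?_⟩
  intro u hu
  have hu0 : 0 < u := lt_of_lt_of_le (by positivity) hu
  have hau : 32 ≤ a * u := by
    rw [div_le_iff₀ ha] at hu
    linarith
  obtain ⟨I, c, hI1, hI2⟩ := h (a * u) hau
  refine ⟨I, fun i => c i / u, ?_, ?_⟩
  · rw [Real.mul_rpow ha.le hu0.le] at hI1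
    linarith
  · rintro α ⟨h2, h3, h4⟩
    have h5 : α * u ∈ {x | ¬ Good (1 / 2 + σ) β x} ∩ Set.Icc (a * u) (3 / 2 * (a * u)) :=
      ⟨h2, mul_le_mul_of_nonneg_right h3 hu0.le, by
        have := mul_le_mul_of_nonneg_right h4 hu0.le
        linarith⟩
    have h6 := hI2 h5
    simp only [Set.mem_iUnion] at h6 ⊢
    obtain ⟨i, hi, h7, h8⟩ := h6
    refine ⟨i, hi, ?_, ?_⟩
    · rw [div_le_iff₀ hu0]; exact h7
    · have e1 : c i / u + 3 * a ^ (-β) * u ^ (-(1 + β)) = (c i + 3 * (a * u) ^ (-β)) / u := by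
        rw [Real.mul_rpow ha.le hu0.le, show -(1 + β) = -β - 1 by ring, Real.rpow_sub_one hu0.ne']
        field_simp
      rw [e1, le_div_iff₀ hu0]
      exact h8

end Pool.Agent.H25.GC
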