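import Mathlib
import Pool.Agent.H25.GC.Cov

/-! The Hausdorff dimension of the set of bad dilations. -/

set_option autoImplicit false

open Finset Filter Topology MeasureTheory
open scoped ENNReal NNReal MeasureTheory

namespace Pool.Agent.H25.GC

/-- a limsup set with good coverings has Hausdorff measure zero -/
lemma haus_zero (A : Set ℝ) (E : ℕ → Set ℝ) (s : ℝ) (hs : 0 < s) (I : ℕ → Finset ℕ) (c : ℕ → ℕ → ℝ) (l : ℕ → ℝ)
    (hl : ∀ k, 0 ≤ l k) (hl0 : Tendsto l atTop (𝓝 0)) (hA : ∀ α ∈ A, ∃ᶠ k in atTop, α ∈ E k)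
    (hE : ∀ᶠ k in atTop, E k ∩ A ⊆ ⋃ i ∈ I k, Set.Icc (c k i) (c k i + l k))
    (hsum : Summable (fun k => (I k).card * (l k) ^ s)) : μH[s] A = 0 := by
  classical
  set t : ∀ K : ℕ, (ℕ × ℕ) → Set ℝ := fun K p =>
    if K ≤ p.1 ∧ p.2 ∈ I p.1 then Set.Icc (c p.1 p.2) (c p.1 p.2 + l p.1) else ∅ with ht
  set r : ℕ → ℝ≥0∞ := fun K => ⨆ k ≥ K, ENNReal.ofReal (l k) with hr
  have hl1 : Tendsto (fun k => ENNReal.ofReal (l k)) atTop (𝓝 0) := by
    have := ENNReal.tendsto_ofReal hl0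
    rwa [ENNReal.ofReal_zero] at this
  have hr0 : Tendsto r atTop (𝓝 0) := by
    rw [ENNReal.tendsto_nhds_zero]
    intro ε hε
    obtain ⟨K, hK⟩ := eventually_atTop.mp ((ENNReal.tendsto_nhds_zero.mp hl1) ε hε)
    filter_upwards [eventually_ge_atTop K] with n hn
    exact iSup₂_le (fun k hk => hK k (hn.trans hk))
  have hdiam : ∀ K p, Metric.ediam (t K p) ≤ r K := by
    intro K p
    by_cases h : K ≤ p.1 ∧ p.2 ∈ I p.1
    · simp only [ht, h, and_self, if_true, Real.ediam_Icc]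
      rw [add_sub_cancel_left]
      exact le_iSup₂ (f := fun k (_ : k ≥ K) => ENNReal.ofReal (l k)) p.1 h.1
    · simp only [ht, h, if_false]
      rw [Metric.ediam_empty]
      exact bot_le
  have hcov : ∀ᶠ K in atTop, A ⊆ ⋃ p, t K p := by
    obtain ⟨K0, hK0⟩ := eventually_atTop.mp hE
    filter_upwards [eventually_ge_atTop K0] with K hK
    intro α hα
    obtain ⟨k, hk, hαk⟩ := (frequently_atTop.mp (hA α hα)) K
    have h1 := hK0 k (hK.trans hk) ⟨hαk, hα⟩
    simp only [Set.mem_iUnion] at h1 ⊢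
    obtain ⟨i, hi, h2⟩ := h1
    refine ⟨(k, i), ?_⟩
    simp only [ht]
    rw [if_pos ⟨hk, hi⟩]
    exact h2
  have hm := Measure.hausdorffMeasure_le_liminf_tsum s A r hr0 t (Eventually.of_forall (fun K p => hdiam K p)) hcov
  have hsumK : ∀ K : ℕ, ∑' p, Metric.ediam (t K p) ^ s ≤
      ∑' k : ℕ, ENNReal.ofReal ((I (k + K)).card * (l (k + K)) ^ s) := by
    intro K
    rw [ENNReal.tsum_prod']
    have h1 : ∀ k : ℕ, ∑' i : ℕ, Metric.ediam (t K (k, i)) ^ s =
        if K ≤ k then ENNReal.ofReal ((I k).card * (l k) ^ s) else 0 := by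
      intro k
      by_cases hk : K ≤ k
      · rw [if_pos hk]
        rw [tsum_eq_sum (s := I k)]
        · have h2 : ∀ i ∈ I k, Metric.ediam (t K (k, i)) ^ s = ENNReal.ofReal ((l k) ^ s) := by
            intro i hi
            simp only [ht]
            rw [if_pos ⟨hk, hi⟩, Real.ediam_Icc, add_sub_cancel_left, ENNReal.ofReal_rpow_of_nonneg (hl k) hs.le]
          rw [Finset.sum_congr rfl h2, Finset.sum_const, nsmul_eq_mul, ENNReal.ofReal_mul (Nat.cast_nonneg _),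
            ENNReal.ofReal_natCast]
        · intro i hi
          simp only [ht]
          rw [if_neg (fun h => hi h.2), Metric.ediam_empty, ENNReal.zero_rpow_of_pos hs]
      · rw [if_neg hk]
        rw [ENNReal.tsum_eq_zero]
        intro i
        simp only [ht]
        rw [if_neg (fun h => hk h.1), Metric.ediam_empty, ENNReal.zero_rpow_of_pos hs]
    simp_rw [h1]
    rw [← Summable.sum_add_tsum_nat_add'
      (f := fun k => if K ≤ k then ENNReal.ofReal ((I k).card * (l k) ^ s) else 0) (k := K) ENNReal.summable]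
    rw [Finset.sum_eq_zero (fun i hi => if_neg (by have := Finset.mem_range.mp hi; omega)), zero_add]
    apply ENNReal.tsum_le_tsum
    intro k
    rw [if_pos (by omega)]
  have hlim : Tendsto (fun K : ℕ => ∑' k : ℕ, ENNReal.ofReal ((I (k + K)).card * (l (k + K)) ^ s)) atTop (𝓝 0) :=
    ENNReal.tendsto_sum_nat_add (fun k => ENNReal.ofReal ((I k).card * (l k) ^ s)) hsum.tsum_ofReal_ne_top
  have hle : liminf (fun K => ∑' p, Metric.ediam (t K p) ^ s) atTop ≤ 0 := by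
    rw [← hlim.liminf_eq]
    exact liminf_le_liminf (Eventually.of_forall hsumK)
  exact le_antisymm (hm.trans hle) bot_le

/-- the dimension of the set of bad dilations in one interval -/
lemma dim_one {τ η : ℝ} (hτ : 0 ≤ τ) (hη : 0 < η) (hη1 : η ≤ 1 / 6) {β : ℝ}
    (hβ0 : 0 ≤ β) (hβ1 : β ≤ 4 * η) (hβ2 : β ≤ 1 - 4 * η) (u : ℕ → ℝ) (hu : ∀ k, 0 < u k)
    (hsum : ∀ t : ℝ, τ < t → Summable (fun k => (u k) ^ (-t))) {a : ℝ} (ha : 0 < a) :
    dimH ({α : ℝ | ∃ᶠ k in atTop, ¬ Good (1 / 2 + η) β (α * u k)} ∩ Set.Icc a (3 / 2 * a)) ≤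
      ENNReal.ofReal ((1 + τ - 6 * η) / (1 + β)) := by
  have hutop : Tendsto u atTop atTop := by
    have h1 := (hsum (τ + 1) (by linarith)).tendsto_atTop_zero
    rw [tendsto_atTop]
    intro b
    have hb : 0 < (max b 1) ^ (-(τ + 1)) := by positivity
    filter_upwards [h1.eventually (gt_mem_nhds hb)] with k hk
    by_contra hcon
    push Not at hcon
    have h2 : (max b 1) ^ (-(τ + 1)) ≤ (u k) ^ (-(τ + 1)) :=
      Real.rpow_le_rpow_of_nonpos (hu k) (hcon.le.trans (le_max_left _ _)) (by linarith)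
    linarith
  set d : ℝ := (1 + τ - 6 * η) / (1 + β) with hd
  have hd0 : 0 ≤ d := div_nonneg (by linarith) (by linarith)
  set A : Set ℝ := {α : ℝ | ∃ᶠ k in atTop, ¬ Good (1 / 2 + η) β (α * u k)} ∩ Set.Icc a (3 / 2 * a) with hA
  have key : ∀ s : ℝ, d < s → μH[s] A = 0 := by
    intro s hs
    have hs0 : 0 < s := hd0.trans_lt hs
    set ε : ℝ := ((1 + β) * s - (1 + τ - 6 * η)) / 2 with hε
    have hε0 : 0 < ε := by
      rw [hd, div_lt_iff₀ (by linarith)] at hs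
      rw [hε]; linarith
    obtain ⟨C, D, hC, hD, h⟩ := dil_cover hη hη1 hβ0 hβ1 hβ2 hε0 ha
    have hch : ∀ k : ℕ, ∃ (I : Finset ℕ) (c : ℕ → ℝ), ((I.card : ℝ) ≤ C * (u k) ^ (1 - 6 * η + ε)) ∧
        (32 / a ≤ u k → {α | ¬ Good (1 / 2 + η) β (α * u k)} ∩ Set.Icc a (3 / 2 * a) ⊆
          ⋃ i ∈ I, Set.Icc (c i) (c i + D * (u k) ^ (-(1 + β)))) := by
      intro k
      have := hu k
      by_cases h1 : 32 / a ≤ u k
      · obtain ⟨I, c, h2, h3⟩ := h (u k) h1
        exact ⟨I, c, h2, fun _ => h3⟩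
      · exact ⟨∅, fun _ => 0, by simp only [Finset.card_empty, Nat.cast_zero]; positivity, fun h2 => absurd h2 h1⟩
    choose I c hI1 hI2 using hch
    refine haus_zero A (fun k => {α | ¬ Good (1 / 2 + η) β (α * u k)}) s hs0 I c
      (fun k => D * (u k) ^ (-(1 + β))) (fun k => by have := hu k; positivity) ?_ ?_ ?_ ?_
    · have h1 : Tendsto (fun k => (u k) ^ (-(1 + β))) atTop (𝓝 0) :=
        (tendsto_rpow_neg_atTop (by linarith)).comp hutop
      simpa using h1.const_mul D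
    · intro α hα
      exact hα.1
    · filter_upwards [hutop.eventually_ge_atTop (32 / a)] with k hk
      rintro α ⟨h1, h2⟩
      exact hI2 k hk ⟨h1, h2.2⟩
    · have h1 : Summable (fun k => (C * D ^ s) * (u k) ^ (-(τ + ε))) := (hsum (τ + ε) (by linarith)).mul_left _
      refine Summable.of_nonneg_of_le (fun k => by have := hu k; positivity) ?_ h1
      intro k
      have hk := hu k
      calc ((I k).card : ℝ) * (D * (u k) ^ (-(1 + β))) ^ s
          ≤ (C * (u k) ^ (1 - 6 * η + ε)) * (D * (u k) ^ (-(1 + β))) ^ s :=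
            mul_le_mul_of_nonneg_right (hI1 k) (by positivity)
        _ = (C * D ^ s) * ((u k) ^ (1 - 6 * η + ε) * ((u k) ^ (-(1 + β))) ^ s) := by
            rw [Real.mul_rpow hD.le (by positivity)]; ring
        _ = (C * D ^ s) * (u k) ^ (-(τ + ε)) := by
            rw [← Real.rpow_mul hk.le, ← Real.rpow_add hk]
            congr 2
            rw [hε]; ring
  refine le_of_forall_gt_imp_ge_of_dense ?_
  intro b hb
  by_cases hbt : b = ⊤
  · rw [hbt]; exact le_top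
  have hb1 : d < b.toReal := by
    rwa [ENNReal.ofReal_lt_iff_lt_toReal hd0 hbt] at hb
  have h1 := key b.toReal hb1
  have h2 : ((b.toNNReal : ℝ≥0) : ℝ) = b.toReal := rfl
  have h3 : dimH A ≤ (b.toNNReal : ℝ≥0∞) := by
    apply dimH_le_of_hausdorffMeasure_ne_top
    rw [h2, h1]
    exact ENNReal.zero_ne_top
  rwa [ENNReal.coe_toNNReal hbt] at h3

/-- the dimension of the set of bad dilations -/
theorem dim_bad {τ η : ℝ} (hτ : 0 ≤ τ) (hη : 0 < η) (hη1 : η ≤ 1 / 6) {β : ℝ}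
    (hβ0 : 0 ≤ β) (hβ1 : β ≤ 4 * η) (hβ2 : β ≤ 1 - 4 * η) (u : ℕ → ℝ) (hu : ∀ k, 0 < u k)
    (hsum : ∀ t : ℝ, τ < t → Summable (fun k => (u k) ^ (-t))) :
    dimH {α : ℝ | 0 < α ∧ ∃ᶠ k in atTop, ¬ Good (1 / 2 + η) β (α * u k)} ≤
      ENNReal.ofReal ((1 + τ - 6 * η) / (1 + β)) := by
  have h1 : {α : ℝ | 0 < α ∧ ∃ᶠ k in atTop, ¬ Good (1 / 2 + η) β (α * u k)} ⊆
      ⋃ i : ℤ, ({α : ℝ | ∃ᶠ k in atTop, ¬ Good (1 / 2 + η) β (α * u k)} ∩
        Set.Icc ((3 / 2 : ℝ) ^ i) (3 / 2 * (3 / 2 : ℝ) ^ i)) := by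
    rintro α ⟨h2, h3⟩
    obtain ⟨i, h4⟩ := Set.mem_iUnion.mp (cover_pos h2)
    exact Set.mem_iUnion.mpr ⟨i, h3, h4⟩
  refine (dimH_mono h1).trans ?_
  rw [dimH_iUnion]
  exact iSup_le (fun i => dim_one hτ hη hη1 hβ0 hβ1 hβ2 u hu hsum (by positivity))

end Pool.Agent.H25.GC
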